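import Pool.Agent.H802T.Tower

/-!
# Actions on the cohomology of products
-/

open CategoryTheory AlgebraicGeometry Finset

set_option linter.unusedSectionVars false

universe u v w

namespace Pool.Agent.H802V

open Pool.Agent.TH125.Gal
open Pool.Agent.H914 Pool.Agent.H914.VarClass Pool.Agent.H914.VarClass.Obj
  Pool.Agent.H914.WeilCohomology Pool.Agent.H281R3.HT Pool.Agent.W552 Pool.Agent.H802T

variable {k : Type u} [Field k] {𝒱 : VarClass k} {ops : CycleOps 𝒱}
  {W : WeilCohomology.{u, v} ops} {Γ : Type w} [Group Γ]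

/-- The action respects the degrees. -/
def Grd {A : 𝒱.Obj} (ρ : Γ →* (W.H A ≃ₐ[W.K] W.H A)) : Prop :=
  ∀ g i, ∀ a ∈ W.gr A i, ρ g a ∈ W.gr A i

/-- An action on the cohomology of the product which is compatible with the projections. -/
def IsPA {A B : 𝒱.Obj} (ρ : Γ →* (W.H A ≃ₐ[W.K] W.H A)) (τ : Γ →* (W.H B ≃ₐ[W.K] W.H B))
    (υ : Γ →* (W.H (A.prod B) ≃ₐ[W.K] W.H (A.prod B))) : Prop :=
  (∀ g a, υ g (W.map (fst A B) a) = W.map (fst A B) (ρ g a)) ∧
    ∀ g b, υ g (W.map (snd A B) b) = W.map (snd A B) (τ g b)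

section single

variable {A B : 𝒱.Obj} (σ : W.H A ≃ₐ[W.K] W.H A) (τ : W.H B ≃ₐ[W.K] W.H B)

/-- the linear map -/
noncomputable def plin : W.H (A.prod B) ≃ₗ[W.K] W.H (A.prod B) :=
  (kEquiv W A B).symm ≪≫ₗ TensorProduct.congr σ.toLinearEquiv τ.toLinearEquiv ≪≫ₗ kEquiv W A B

theorem plin_apply (a : W.H A) (b : W.H B) :
    plin σ τ (W.map (fst A B) a * W.map (snd A B) b) =
      W.map (fst A B) (σ a) * W.map (snd A B) (τ b) := by
  change kEquiv W A B (TensorProduct.congr σ.toLinearEquiv τ.toLinearEquiv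
    ((kEquiv W A B).symm (W.map (fst A B) a * W.map (snd A B) b))) = _
  rw [kEquiv_symm, TensorProduct.congr_tmul, kEquiv_tmul]
  rfl

theorem prod_mul {i j : ℕ} {b : W.H B} {a' : W.H A} (hb : b ∈ W.gr B j) (ha' : a' ∈ W.gr A i)
    (a : W.H A) (b' : W.H B) :
    (W.map (fst A B) a * W.map (snd A B) b) * (W.map (fst A B) a' * W.map (snd A B) b') =
      (-1 : W.K) ^ (j * i) • (W.map (fst A B) (a * a') * W.map (snd A B) (b * b')) := by
  have h1 := W.comm (W.map_mem (snd A B) hb) (W.map_mem (fst A B) ha')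
  calc (W.map (fst A B) a * W.map (snd A B) b) * (W.map (fst A B) a' * W.map (snd A B) b')
      = W.map (fst A B) a * (W.map (snd A B) b * W.map (fst A B) a') * W.map (snd A B) b' := by
        simp only [mul_assoc]
    _ = _ := by
        rw [h1, map_mul, map_mul]
        simp only [mul_smul_comm, smul_mul_assoc, mul_assoc]

variable (hσ : ∀ i, ∀ a ∈ W.gr A i, σ a ∈ W.gr A i) (hτ : ∀ i, ∀ a ∈ W.gr B i, τ a ∈ W.gr B i)

include hσ hτ in
theorem plin_mul (x y : W.H (A.prod B)) : plin σ τ (x * y) = plin σ τ x * plin σ τ y := by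
  refine W.kunneth_induction (p := fun x => plin σ τ (x * y) = plin σ τ x * plin σ τ y) ?_ ?_ x
  · intro a b ha hb
    rw [add_mul, map_add, map_add, add_mul, ha, hb]
  · intro i j a ha b hb
    refine W.kunneth_induction (p := fun y => plin σ τ ((W.map (fst A B) a * W.map (snd A B) b) * y)
      = plin σ τ (W.map (fst A B) a * W.map (snd A B) b) * plin σ τ y) ?_ ?_ y
    · intro c d hc hd
      rw [mul_add, map_add, map_add, mul_add, hc, hd]
    · intro i' j' a' ha' b' hb'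
      rw [prod_mul hb ha', map_smul, plin_apply, plin_apply, plin_apply,
        prod_mul (hτ _ _ hb) (hσ _ _ ha'), map_mul σ, map_mul τ]

/-- The automorphism of the cohomology of the product. -/
noncomputable def palg : W.H (A.prod B) ≃ₐ[W.K] W.H (A.prod B) :=
  AlgEquiv.ofLinearEquiv (plin σ τ) (by
    have h1 := plin_apply σ τ 1 1
    simp only [map_one, one_mul] at h1
    exact h1) (plin_mul σ τ hσ hτ)

theorem palg_apply (a : W.H A) (b : W.H B) :
    palg σ τ hσ hτ (W.map (fst A B) a * W.map (snd A B) b) =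
      W.map (fst A B) (σ a) * W.map (snd A B) (τ b) := plin_apply σ τ a b

end single

theorem alg_ext {A B : 𝒱.Obj} {M : Type v} [Ring M] [Algebra W.K M]
    {f g : W.H (A.prod B) →ₐ[W.K] M}
    (h1 : ∀ a, f (W.map (fst A B) a) = g (W.map (fst A B) a))
    (h2 : ∀ b, f (W.map (snd A B) b) = g (W.map (snd A B) b)) : f = g := by
  apply AlgHom.ext
  intro c
  refine kun_ext (L := f) (L' := g) (fun a b => map_add _ _ _) (fun a b => map_add _ _ _) ?_ c
  intro a z
  rw [map_mul, map_mul, h1, h2]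

theorem exists_pa {A B : 𝒱.Obj} {ρ : Γ →* (W.H A ≃ₐ[W.K] W.H A)}
    {τ : Γ →* (W.H B ≃ₐ[W.K] W.H B)} (hρ : Grd ρ) (hτ : Grd τ) : ∃ υ, IsPA ρ τ υ := by
  have h1 : ∀ g a, palg (ρ g) (τ g) (hρ g) (hτ g) (W.map (fst A B) a) =
      W.map (fst A B) (ρ g a) := by
    intro g a
    have h := palg_apply (ρ g) (τ g) (hρ g) (hτ g) a 1
    simpa only [map_one, mul_one] using h
  have h2 : ∀ g b, palg (ρ g) (τ g) (hρ g) (hτ g) (W.map (snd A B) b) =
      W.map (snd A B) (τ g b) := by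
    intro g b
    have h := palg_apply (ρ g) (τ g) (hρ g) (hτ g) 1 b
    simpa only [map_one, one_mul] using h
  refine ⟨{ toFun := fun g => palg (ρ g) (τ g) (hρ g) (hτ g)
            map_one' := ?_
            map_mul' := fun g g' => ?_ }, h1, h2⟩
  · apply AlgEquiv.ext
    intro c
    have h3 : (palg (ρ 1) (τ 1) (hρ 1) (hτ 1) : W.H (A.prod B) →ₐ[W.K] W.H (A.prod B)) =
        AlgHom.id _ _ := by
      refine alg_ext (fun a => ?_) fun b => ?_
      · change palg (ρ 1) (τ 1) (hρ 1) (hτ 1) (W.map (fst A B) a) = W.map (fst A B) a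
        rw [h1, map_one]
        rfl
      · change palg (ρ 1) (τ 1) (hρ 1) (hτ 1) (W.map (snd A B) b) = W.map (snd A B) b
        rw [h2, map_one]
        rfl
    exact DFunLike.congr_fun h3 c
  · apply AlgEquiv.ext
    intro c
    have h3 : (palg (ρ (g * g')) (τ (g * g')) (hρ _) (hτ _) :
        W.H (A.prod B) →ₐ[W.K] W.H (A.prod B)) =
        (palg (ρ g) (τ g) (hρ g) (hτ g) : W.H (A.prod B) →ₐ[W.K] W.H (A.prod B)).comp
          (palg (ρ g') (τ g') (hρ g') (hτ g') : W.H (A.prod B) →ₐ[W.K] W.H (A.prod B)) := by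
      refine alg_ext (fun a => ?_) fun b => ?_
      · change palg (ρ (g * g')) (τ (g * g')) (hρ _) (hτ _) (W.map (fst A B) a) =
          palg (ρ g) (τ g) (hρ g) (hτ g) (palg (ρ g') (τ g') (hρ g') (hτ g') (W.map (fst A B) a))
        rw [h1, h1, h1, map_mul]
        rfl
      · change palg (ρ (g * g')) (τ (g * g')) (hρ _) (hτ _) (W.map (snd A B) b) =
          palg (ρ g) (τ g) (hρ g) (hτ g) (palg (ρ g') (τ g') (hρ g') (hτ g') (W.map (snd A B) b))
        rw [h2, h2, h2, map_mul]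
        rfl
    exact DFunLike.congr_fun h3 c

theorem pa_unique {A B : 𝒱.Obj} {ρ : Γ →* (W.H A ≃ₐ[W.K] W.H A)}
    {τ : Γ →* (W.H B ≃ₐ[W.K] W.H B)} {υ υ' : Γ →* (W.H (A.prod B) ≃ₐ[W.K] W.H (A.prod B))}
    (h : IsPA ρ τ υ) (h' : IsPA ρ τ υ') : υ = υ' := by
  apply MonoidHom.ext
  intro g
  apply AlgEquiv.ext
  intro c
  have h3 : (υ g : W.H (A.prod B) →ₐ[W.K] W.H (A.prod B)) = υ' g := by
    refine alg_ext (fun a => ?_) fun b => ?_
    · exact (h.1 g a).trans (h'.1 g a).symm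
    · exact (h.2 g b).trans (h'.2 g b).symm
  exact DFunLike.congr_fun h3 c

theorem IsPA.grd {A B : 𝒱.Obj} {ρ : Γ →* (W.H A ≃ₐ[W.K] W.H A)}
    {τ : Γ →* (W.H B ≃ₐ[W.K] W.H B)} {υ : Γ →* (W.H (A.prod B) ≃ₐ[W.K] W.H (A.prod B))}
    (h : IsPA ρ τ υ) (hρ : Grd ρ) (hτ : Grd τ) : Grd υ := by
  intro g l c hc
  have h1 : ∀ c, υ g (proj (W.isInternal (A.prod B)) l c) =
      proj (W.isInternal (A.prod B)) l (υ g c) := by
    intro c
    refine W.kunneth_induction (p := fun c => υ g (proj (W.isInternal (A.prod B)) l c) =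
      proj (W.isInternal (A.prod B)) l (υ g c)) ?_ ?_ c
    · intro a b ha hb
      rw [map_add, map_add, map_add, map_add, ha, hb]
    · intro i j a ha b hb
      have h2 : W.map (fst A B) a * W.map (snd A B) b ∈ W.gr (A.prod B) (i + j) :=
        W.mul_mem (W.map_mem _ ha) (W.map_mem _ hb)
      have h3 : υ g (W.map (fst A B) a * W.map (snd A B) b) ∈ W.gr (A.prod B) (i + j) := by
        rw [map_mul, h.1, h.2]
        exact W.mul_mem (W.map_mem _ (hρ g i a ha)) (W.map_mem _ (hτ g j b hb))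
      by_cases hl : l = i + j
      · subst hl
        rw [proj_same _ h2, proj_same _ h3]
      · rw [proj_ne _ h2 (Ne.symm hl), proj_ne _ h3 (Ne.symm hl), map_zero]
  have h2 := h1 c
  rw [proj_same _ hc] at h2
  rw [h2]
  exact proj_mem _ _ _

end Pool.Agent.H802V
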