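import Pool.Agent.H802V.Main

/-!
# Varieties with big monodromy without exceptional pairs
-/

open CategoryTheory AlgebraicGeometry Finset Function

set_option linter.unusedSectionVars false

universe u

namespace Pool.Agent.H802V

open Pool.Agent.TH125.Gal
open Pool.Agent.H914 Pool.Agent.H914.VarClass Pool.Agent.H914.VarClass.Obj
  Pool.Agent.H914.WeilCohomology Pool.Agent.H281R3.HT Pool.Agent.W552 Pool.Agent.H802T

section rep

variable {K : Type} [Field K] {Γ : Type} [Group Γ] {P Q : PRep K Γ}

theorem dim_pos (hbig : P.Big) : 0 < P.dim := by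
  obtain ⟨x, hx⟩ := nontriv hbig
  have : Nontrivial P.V := ⟨x, 0, hx⟩
  exact Module.finrank_pos

/-- **Two representations with big monodromy are unrelated, isomorphic up to scalars, or
exceptional.** -/
theorem unr_or_prop [CharZero K] (hP : P.Big) (hQ : Q.Big) (h : ¬ Exceptional P Q)
    (h' : ¬ Exceptional Q P) : Unr Q P ∨ Proportional P Q := by
  have hdP := dim_pos hP
  have hdQ := dim_pos hQ
  rcases lt_trichotomy Q.size P.size with hlt | heq | hgt
  · exact Or.inl (Or.inl (Or.inl (smaller_of_size hlt)))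
  · rw [PRep.size, PRep.size] at heq
    rcases Int.units_eq_one_or P.sign with hs | hs <;> rcases Int.units_eq_one_or Q.sign with hs' | hs'
    · rw [hs, hs', Units.val_one] at heq
      have h1 : ((Q.dim : ℤ) - P.dim) * ((Q.dim : ℤ) + P.dim - 1) = 0 := by linear_combination heq
      have h2 : Q.dim = P.dim := by
        rcases mul_eq_zero.1 h1 with h2 | h2 <;> omega
      by_cases hpr : Proportional P Q
      · exact Or.inr hpr
      · refine Or.inl (Or.inl (Or.inr (Or.inr ⟨Q.big_iff.2 hQ, Or.inr ⟨h2, hs'.trans hs.symm,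
          fun h8 => ?_, hpr⟩⟩)))
        exact absurd ⟨hs, Or.inr ⟨hs', h8, h2.trans h8, hpr⟩⟩ h
    · rw [hs, hs', Units.val_neg, Units.val_one] at heq
      have h1 : ((P.dim : ℤ) - (Q.dim + 1)) * ((Q.dim : ℤ) + P.dim) = 0 := by
        linear_combination -heq
      have h2 : P.dim = Q.dim + 1 := by
        rcases mul_eq_zero.1 h1 with h2 | h2 <;> omega
      obtain ⟨n, hn⟩ := PRep.even_dim hs'
      by_cases h6 : 6 ≤ Q.dim
      · exact Or.inl (Or.inr ⟨hQ, Or.inr ⟨hs, hs', h2, h6⟩⟩)
      · refine absurd ⟨hs, Or.inl ⟨hs', ?_⟩⟩ h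
        omega
    · rw [hs, hs', Units.val_neg, Units.val_one] at heq
      have h1 : ((Q.dim : ℤ) - (P.dim + 1)) * ((Q.dim : ℤ) + P.dim) = 0 := by
        linear_combination heq
      have h2 : Q.dim = P.dim + 1 := by
        rcases mul_eq_zero.1 h1 with h2 | h2 <;> omega
      obtain ⟨n, hn⟩ := PRep.even_dim hs
      by_cases h6 : 6 ≤ P.dim
      · exact Or.inl (Or.inr ⟨hQ, Or.inl ⟨hs', hs, h2, h6⟩⟩)
      · refine absurd ⟨hs', Or.inl ⟨hs, ?_⟩⟩ h'
        omega
    · rw [hs, hs', Units.val_neg, Units.val_one] at heq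
      have h1 : ((Q.dim : ℤ) - P.dim) * ((Q.dim : ℤ) + P.dim + 1) = 0 := by linear_combination heq
      have h2 : Q.dim = P.dim := by
        rcases mul_eq_zero.1 h1 with h2 | h2 <;> omega
      by_cases hpr : Proportional P Q
      · exact Or.inr hpr
      · exact Or.inl (Or.inl (Or.inr (Or.inr ⟨Q.big_iff.2 hQ, Or.inr ⟨h2, hs'.trans hs.symm,
          fun _ => hs, hpr⟩⟩)))
  · exact Or.inl (Or.inl (Or.inr (Or.inr ⟨Q.big_iff.2 hQ, Or.inl (smaller_of_size hgt)⟩)))

end rep

variable {k : Type u} [Field k] {𝒱 : VarClass k} {ops : CycleOps 𝒱}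
  {W : WeilCohomology.{u, 0} ops} {Γ : Type} [Group Γ] {χ : Γ →* W.Kˣ}
  {ι : Type} {X : ι → GVar W Γ} {T : ι → PRep W.K Γ} {P : GVar W Γ}

theorem Cellular.generated (h : Cellular χ P) (G : Empty → PRep W.K Γ) : GeneratedBy G P := by
  intro x hx
  have hG := isGalois h.galois
  obtain ⟨j, c, hc, hxc⟩ : ∃ j, ∃ c ∈ algClasses W P.X j, bil W P.X x c ≠ 0 := by
    by_contra hcon
    push Not at hcon
    apply hx
    refine W.nondeg _ fun y => ?_
    have hy : y ∈ algSpan W P.X := h.algebraic Submodule.mem_top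
    have h1 : ∀ y ∈ algSpan W P.X, bil W P.X x y = 0 := by
      intro y hy
      induction hy using Submodule.span_induction with
      | mem c hc =>
        obtain ⟨j, hj⟩ := Set.mem_iUnion.1 hc
        exact hcon j c hj
      | zero => rw [map_zero]
      | add a b _ _ ha hb => rw [map_add, ha, hb, add_zero]
      | smul q a _ ha => rw [map_smul, ha, smul_zero]
    exact h1 y hy
  obtain ⟨Δ, hΔ, h1⟩ := h.galois.cl_fix j c hc
  refine ⟨{ I := Empty, c := Empty.elim, app := fun z _ => bil W P.X z c, lin := fun _ => ?_,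
            mult := fun z => ⟨MultilinearMap.constOfIsEmpty W.K _ (bil W P.X z c), fun _ => rfl⟩ },
    ⟨fun i => i.elim, hxc⟩, Δ, hΔ, fun g hg => ?_⟩
  · exact ⟨fun a b => by rw [map_add, LinearMap.add_apply], fun r a => by
      rw [map_smul, LinearMap.smul_apply]⟩
  · refine ⟨(χ g : W.K) ^ P.X.dim * ((χ g : W.K) ^ j)⁻¹, fun z _ => ?_⟩
    have h2 := bil_act hG g z c
    rw [h1 g hg, map_smul, smul_eq_mul] at h2
    have h3 : (χ g : W.K) ^ j ≠ 0 := pow_ne_zero _ (Units.ne_zero _)
    change bil W P.X (P.act g z) c = _ * bil W P.X z c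
    field_simp
    linear_combination h2

theorem Cellular.tate (h : Cellular χ P) : TateConjecture χ P := by
  intro j c hc _
  exact algSpan_gr (h.algebraic Submodule.mem_top) hc

theorem BigFamily.fam (h : BigFamily χ X T) (hP : Cellular χ P) :
    Fam χ X T (Empty.elim : Empty → PRep W.K Γ) P where
  varieties := h.varieties
  related i j _ := unr_or_prop ((T i).big_iff.1 (h.varieties.big i))
    ((T j).big_iff.1 (h.varieties.big j)) (h.regular i j) (h.regular j i)
  pairs := h.pairs
  generated := hP.generated _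
  rest _ j := j.elim
  graded := hP.galois.gr_mem

/-- **The Tate conjecture for products of varieties with big monodromy.** -/
theorem BigFamily.tate [IsAlgClosed W.K] (h : BigFamily χ X T) (hP : Cellular χ P) {l : List ι}
    {Y : GVar W Γ} (hY : Word X P l Y) (hl : FewFactors X T l) : TateConjecture χ Y :=
  ((h.fam hP).tate_iff hY hl).2 hP.tate

end Pool.Agent.H802V
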