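import Pool.Agent.H802V.Trf

/-!
# The transfer is given by an algebraic correspondence
-/

open CategoryTheory AlgebraicGeometry Finset

set_option linter.unusedSectionVars false

universe u

namespace Pool.Agent.H802V

open Pool.Agent.TH125.Gal
open Pool.Agent.H914 Pool.Agent.H914.VarClass Pool.Agent.H914.VarClass.Obj
  Pool.Agent.H914.WeilCohomology Pool.Agent.H281R3.HT Pool.Agent.W552 Pool.Agent.H802T

variable {k : Type u} [Field k] {𝒱 : VarClass k} {ops : CycleOps 𝒱}
  {W : WeilCohomology.{u, 0} ops} {Γ : Type} [Group Γ] {χ : Γ →* W.Kˣ}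

/-- the class of a linear map on the transcendental part -/
noncomputable def gam {A A' : 𝒱.Obj} (s : SB W A) (φ : W.H A →ₗ[W.K] W.H A') :
    W.H (A.prod A') :=
  ∑ i, W.map (snd A A') (φ (s.bT i)) * W.map (fst A A') (s.uT i)

section push

variable {A A' B : 𝒱.Obj} {s : SB W A} {φ : W.H A →ₗ[W.K] W.H A'}

theorem push_three {d' i : ℕ} {w : W.H (A'.prod B)} {y : W.H A} (hw : w ∈ W.gr _ d')
    (hy : y ∈ W.gr A i) (htr : Odd i → W.tr A y = 0) (z : W.H (A'.prod B)) :
    W.push (snd A (A'.prod B)) (W.map (snd A (A'.prod B)) w * W.map (fst A (A'.prod B)) y *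
      W.map (snd A (A'.prod B)) z) = W.tr A y • (w * z) := by
  rw [W.comm (W.map_mem (snd A (A'.prod B)) hw) (W.map_mem (fst A (A'.prod B)) hy),
    smul_mul_assoc, map_smul, mul_assoc, ← map_mul, W.push_snd, smul_smul]
  rcases Nat.even_or_odd i with h | h
  · rw [(h.mul_left d').neg_one_pow, one_mul]
  · rw [htr h, mul_zero]

/-- **The map on the product is given by the class.** -/
theorem ext1_eq_push (hφ : ∀ a, φ a ∈ W.gr A' A'.dim)
    (hmid : transcendental W A ≤ W.gr A A.dim)
    (hφs : ∀ a, ∑ i, bil W A (s.uT i) a • φ (s.bT i) = φ a) (x : W.H (A.prod B)) :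
    ext1 φ B x = W.push (snd A (A'.prod B))
      (W.map (Obj.lift (fst A (A'.prod B)) (snd A (A'.prod B) ≫ fst A' B)) (gam s φ) *
        W.map (Obj.lift (fst A (A'.prod B)) (snd A (A'.prod B) ≫ snd A' B)) x) := by
  refine W.kunneth_induction (p := fun x => ext1 φ B x = W.push (snd A (A'.prod B))
      (W.map (Obj.lift (fst A (A'.prod B)) (snd A (A'.prod B) ≫ fst A' B)) (gam s φ) *
        W.map (Obj.lift (fst A (A'.prod B)) (snd A (A'.prod B) ≫ snd A' B)) x)) ?_ ?_ x
  · intro a b ha hb
    rw [map_add, map_add, mul_add, map_add, ha, hb]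
  · intro i j a ha b hb
    have h1 : W.map (Obj.lift (fst A (A'.prod B)) (snd A (A'.prod B) ≫ fst A' B)) (gam s φ) =
        ∑ i, W.map (snd A (A'.prod B)) (W.map (fst A' B) (φ (s.bT i))) *
          W.map (fst A (A'.prod B)) (s.uT i) := by
      rw [gam, map_sum]
      refine Finset.sum_congr rfl fun i _ => ?_
      rw [map_mul, ← W.map_comp, ← W.map_comp, Obj.lift_fst, Obj.lift_snd, W.map_comp]
    have h2 : W.map (Obj.lift (fst A (A'.prod B)) (snd A (A'.prod B) ≫ snd A' B))
        (W.map (fst A B) a * W.map (snd A B) b) =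
        W.map (fst A (A'.prod B)) a * W.map (snd A (A'.prod B)) (W.map (snd A' B) b) := by
      rw [map_mul, ← W.map_comp, ← W.map_comp, Obj.lift_fst, Obj.lift_snd, W.map_comp]
    rw [h1, h2, Finset.sum_mul, map_sum]
    have h3 : ∀ i', W.push (snd A (A'.prod B))
        (W.map (snd A (A'.prod B)) (W.map (fst A' B) (φ (s.bT i'))) *
          W.map (fst A (A'.prod B)) (s.uT i') *
          (W.map (fst A (A'.prod B)) a * W.map (snd A (A'.prod B)) (W.map (snd A' B) b))) =
        bil W A (s.uT i') a • (W.map (fst A' B) (φ (s.bT i')) * W.map (snd A' B) b) := by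
      intro i'
      have h4 : ((s.uT i' : W.H A) * a) ∈ W.gr A (A.dim + i) :=
        W.mul_mem (hmid (s.uT i').2) ha
      have h5 := push_three (W.map_mem (fst A' B) (hφ (s.bT i'))) h4 (fun ho =>
        W.tr_eq_zero h4 (fun h6 => by
          rw [h6] at ho
          exact (Nat.not_odd_iff_even.2 (even_two_mul _)) ho)) (W.map (snd A' B) b)
      rw [bil_apply, ← h5, map_mul (W.map (fst A (A'.prod B)))]
      simp only [mul_assoc]
    rw [Finset.sum_congr rfl fun i' _ => h3 i', ext1_apply, ← hφs a, map_sum, Finset.sum_mul]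
    refine Finset.sum_congr rfl fun i' _ => ?_
    rw [map_smul, smul_mul_assoc]

end push

namespace Tw

variable {A A' B : GVar W Γ} (D : Tw χ A A') (s : SB W A.X)

theorem φ_sum (a : W.H A.X) :
    ∑ i, bil W A.X (s.uT i) a • D.φ s (s.bT i) = D.φ s a := by
  have h1 : ∀ i, D.φ s (s.bT i) = (D.v (s.bT i) : W.H A'.X) := by
    intro i
    rw [φ_apply, piT_trans]
  have h2 : piT s a = ∑ i, bil W A.X (s.uT i) a • s.bT i := by
    rw [piT, LinearMap.sum_apply]
    rfl
  rw [φ_apply, h2, map_sum, Submodule.coe_sum]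
  refine Finset.sum_congr rfl fun i _ => ?_
  rw [h1, map_smul]
  rfl

/-- the class is a Tate class -/
theorem gam_alg (hA : Grd A.act) (hA' : Grd A'.act) (hT : TateConjecture χ (prodG A A')) :
    gam s (D.φ s) ∈ algSpan W (A.X.prod A'.X) := by
  obtain ⟨e, he⟩ := D.par
  obtain ⟨Δ', hΔ', h2⟩ := exists_sub D.lam χ A.X.dim A'.X.dim D.sq D.par
  have h1 : gam s (D.φ s) ∈ W.gr (A.X.prod A'.X) (2 * e) := by
    refine Submodule.sum_mem _ fun i _ => ?_
    have h3 := W.mul_mem (W.map_mem (snd A.X A'.X) (D.φ_mem s (s.bT i)))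
      (W.map_mem (fst A.X A'.X) (D.mid (s.uT i).2))
    rwa [show A'.X.dim + A.X.dim = 2 * e by omega] at h3
  have h4 := hT e _ h1 ⟨Δ', hΔ', fun g hg => ?_⟩
  · exact Submodule.span_mono (Set.subset_iUnion _ _) h4
  · have h5 := dT_act D.gal s g
      (F := (W.map (snd A.X A'.X)).toLinearMap ∘ₗ D.φ s)
      (F' := (W.map (fst A.X A'.X)).toLinearMap)
    have h6 : (D.lam g : W.K) • (prodG A A').act g (gam s (D.φ s)) =
        (χ g : W.K) ^ A.X.dim • gam s (D.φ s) := by
      have h7 : (prodG A A').act g (gam s (D.φ s)) =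
          ∑ i, (prodG A A').act g (W.map (snd A.X A'.X) (D.φ s (s.bT i)) *
            W.map (fst A.X A'.X) (s.uT i)) := map_sum ((prodG A A').act g) _ _
      have h8 : ∀ i, (prodG A A').act g (W.map (snd A.X A'.X) (D.φ s (s.bT i)) *
            W.map (fst A.X A'.X) (s.uT i)) =
          W.map (snd A.X A'.X) (A'.act g (D.φ s (s.bT i))) *
            W.map (fst A.X A'.X) (A.act g (s.uT i)) := by
        intro i
        rw [← (prodG_pa hA hA').1, ← (prodG_pa hA hA').2]
        exact map_mul ((prodG A A').act g) _ _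
      rw [h7, Finset.sum_congr rfl fun i _ => h8 i]
      refine Eq.trans ?_ h5
      refine (Finset.smul_sum (r := (D.lam g : W.K)) (f := fun i =>
        W.map (snd A.X A'.X) (A'.act g (D.φ s (s.bT i))) *
            W.map (fst A.X A'.X) (A.act g (s.uT i))) (s := Finset.univ)).trans ?_
      refine Finset.sum_congr rfl fun i _ => ?_
      change _ = W.map (snd A.X A'.X) (D.φ s (A.act g (s.bT i))) *
        W.map (fst A.X A'.X) (A.act g (s.uT i))
      rw [φ_act, map_smul, smul_mul_assoc]
    have h7 := congrArg (fun x : W.Kˣ => (x : W.K)) (h2 g hg e A.X.dim (by omega))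
    simp only [Units.val_mul, Units.val_pow_eq_pow_val] at h7
    rw [← h7, mul_smul] at h6
    exact smul_right_injective _ (Units.ne_zero (D.lam g)) h6

/-- The map on the product preserves the span of the algebraic classes. -/
theorem ext_alg (hA : Grd A.act) (hA' : Grd A'.act) (hT : TateConjecture χ (prodG A A'))
    {x : W.H (A.X.prod B.X)} (hx : x ∈ algSpan W (A.X.prod B.X)) :
    ext1 (D.φ s) B.X x ∈ algSpan W (A'.X.prod B.X) := by
  rw [ext1_eq_push (D.φ_mem s) D.mid (D.φ_sum s)]
  exact algSpan_push _ (algSpan_mul (algSpan_map _ (D.gam_alg s hA hA' hT)) (algSpan_map _ hx))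

end Tw

end Pool.Agent.H802V
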