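import Pool.Agent.H802V.Act

/-!
# Products of varieties with an action, and isomorphisms
-/

open CategoryTheory AlgebraicGeometry Finset

set_option linter.unusedSectionVars false

universe u v w

namespace Pool.Agent.H802V

open Pool.Agent.TH125.Gal
open Pool.Agent.H914 Pool.Agent.H914.VarClass Pool.Agent.H914.VarClass.Obj
  Pool.Agent.H914.WeilCohomology Pool.Agent.H281R3.HT Pool.Agent.W552 Pool.Agent.H802T

variable {k : Type u} [Field k] {𝒱 : VarClass k} {ops : CycleOps 𝒱}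
  {W : WeilCohomology.{u, v} ops} {Γ : Type w} [Group Γ]

open Classical in
/-- the product -/
noncomputable def prodG (A B : GVar W Γ) : GVar W Γ :=
  ⟨A.X.prod B.X, if h : ∃ υ, IsPA A.act B.act υ then h.choose else 1⟩

theorem prodG_eq {A B : GVar W Γ} {υ : Γ →* (W.H (A.X.prod B.X) ≃ₐ[W.K] W.H (A.X.prod B.X))}
    (h : IsPA A.act B.act υ) : prodG A B = ⟨A.X.prod B.X, υ⟩ := by
  have h1 : ∃ υ, IsPA A.act B.act υ := ⟨υ, h⟩
  rw [prodG, dif_pos h1]
  congr 1
  exact pa_unique h1.choose_spec h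

open Classical in
theorem prodG_act {A B : GVar W Γ} {υ : Γ →* (W.H (A.X.prod B.X) ≃ₐ[W.K] W.H (A.X.prod B.X))}
    (h : IsPA A.act B.act υ) : (prodG A B).act = υ := by
  have h1 : ∃ υ, IsPA A.act B.act υ := ⟨υ, h⟩
  have h2 : (prodG A B).act = if h : ∃ υ, IsPA A.act B.act υ then h.choose else 1 := rfl
  rw [h2, dif_pos h1]
  exact pa_unique h1.choose_spec h

theorem prodG_pa {A B : GVar W Γ} (hA : Grd A.act) (hB : Grd B.act) :
    IsPA A.act B.act (prodG A B).act := by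
  obtain ⟨υ, h⟩ := exists_pa hA hB
  rw [prodG_act h]
  exact h

theorem prodG_grd {A B : GVar W Γ} (hA : Grd A.act) (hB : Grd B.act) : Grd (prodG A B).act :=
  (prodG_pa hA hB).grd hA hB

/-- the morphism induces an equivariant map -/
def Eq' (A B : GVar W Γ) (f : A.X ⟶ B.X) : Prop :=
  ∀ g b, A.act g (W.map f b) = W.map f (B.act g b)

theorem Eq'.id (A : GVar W Γ) : Eq' A A (𝟙 A.X) := fun g b => by rw [W.map_id, W.map_id]

theorem Eq'.comp {A B C : GVar W Γ} {f : A.X ⟶ B.X} {g : B.X ⟶ C.X} (hf : Eq' A B f)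
    (hg : Eq' B C g) : Eq' A C (f ≫ g) := fun γ c => by
  rw [W.map_comp, W.map_comp, hf, hg]

theorem Eq'.fst {A B : GVar W Γ} (hA : Grd A.act) (hB : Grd B.act) :
    Eq' (prodG A B) A (fst A.X B.X) := (prodG_pa hA hB).1

theorem Eq'.snd {A B : GVar W Γ} (hA : Grd A.act) (hB : Grd B.act) :
    Eq' (prodG A B) B (snd A.X B.X) := (prodG_pa hA hB).2

theorem Eq'.lift {A B C : GVar W Γ} (hA : Grd A.act) (hB : Grd B.act) {f : C.X ⟶ A.X}
    {g : C.X ⟶ B.X} (hf : Eq' C A f) (hg : Eq' C B g) :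
    Eq' C (prodG A B) (Obj.lift f g) := by
  intro γ c
  refine kun_ext (A := A.X) (Z := B.X) (L := fun c => C.act γ (W.map (Obj.lift f g) c))
    (L' := fun c => W.map (Obj.lift f g) ((prodG A B).act γ c)) (fun a b => ?_) (fun a b => ?_)
    (fun a z => ?_) c
  · rw [map_add, map_add]
  · exact (congrArg (W.map (Obj.lift f g)) (map_add ((prodG A B).act γ) a b)).trans
      (map_add (W.map (Obj.lift f g)) _ _)
  · have e1 := (prodG_pa hA hB).1 γ a
    have e2 := (prodG_pa hA hB).2 γ z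
    have e3 : (prodG A B).act γ (W.map (Obj.fst A.X B.X) a * W.map (Obj.snd A.X B.X) z) =
        W.map (Obj.fst A.X B.X) (A.act γ a) * W.map (Obj.snd A.X B.X) (B.act γ z) := by
      rw [← e1, ← e2]
      exact map_mul ((prodG A B).act γ) _ _
    rw [e3, map_mul, map_mul, map_mul, ← W.map_comp, ← W.map_comp, ← W.map_comp, ← W.map_comp,
      Obj.lift_fst, Obj.lift_snd, hf, hg]

/-- Morphisms to a product which agree after the projections induce the same map. -/
theorem map_ext {A B C : 𝒱.Obj} {f f' : C ⟶ A.prod B}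
    (h1 : ∀ a, W.map (f ≫ fst A B) a = W.map (f' ≫ fst A B) a)
    (h2 : ∀ b, W.map (f ≫ snd A B) b = W.map (f' ≫ snd A B) b) : W.map f = W.map f' := by
  refine alg_ext (fun a => ?_) fun b => ?_
  · rw [← W.map_comp, ← W.map_comp, h1]
  · rw [← W.map_comp, ← W.map_comp, h2]

theorem prod_inv {A B B' : 𝒱.Obj} {f : B ⟶ B'} {g : B' ⟶ B}
    (h1 : ∀ a, W.map f (W.map g a) = a) (a : W.H (A.prod B)) :
    W.map (Obj.lift (fst A B) (snd A B ≫ f)) (W.map (Obj.lift (fst A B') (snd A B' ≫ g)) a) = a := by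
  rw [← W.map_comp]
  have h4 : W.map (Obj.lift (fst A B) (snd A B ≫ f) ≫
      Obj.lift (fst A B') (snd A B' ≫ g)) = W.map (𝟙 (A.prod B)) := by
    refine map_ext (fun a => ?_) fun b => ?_
    · rw [Category.assoc, Obj.lift_fst, Obj.lift_fst, Category.id_comp]
    · rw [Category.assoc, Obj.lift_snd, ← Category.assoc, Obj.lift_snd, Category.id_comp,
        Category.assoc, W.map_comp, W.map_comp, h1]
  rw [h4]
  exact W.map_id _ a

theorem swap_inv {A B C : 𝒱.Obj} (a : W.H (A.prod (B.prod C))) :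
    W.map (Obj.lift (snd A (B.prod C) ≫ fst B C)
      (Obj.lift (fst A (B.prod C)) (snd A (B.prod C) ≫ snd B C)))
      (W.map (Obj.lift (snd B (A.prod C) ≫ fst A C)
        (Obj.lift (fst B (A.prod C)) (snd B (A.prod C) ≫ snd A C))) a) = a := by
  rw [← W.map_comp]
  have h4 : W.map (Obj.lift (snd A (B.prod C) ≫ fst B C)
      (Obj.lift (fst A (B.prod C)) (snd A (B.prod C) ≫ snd B C)) ≫
      Obj.lift (snd B (A.prod C) ≫ fst A C)
        (Obj.lift (fst B (A.prod C)) (snd B (A.prod C) ≫ snd A C))) =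
      W.map (𝟙 (A.prod (B.prod C))) := by
    refine map_ext (fun a => ?_) fun b => ?_
    · simp only [Category.assoc, Obj.lift_fst, Category.id_comp]
      rw [← Category.assoc, Obj.lift_snd, Obj.lift_fst]
    · refine DFunLike.congr_fun (f := W.map _) (g := W.map _) (map_ext (fun a => ?_)
        fun b => ?_) b
      · simp only [Category.assoc, Obj.lift_fst, Obj.lift_snd, Category.id_comp]
      · simp only [Category.assoc, Obj.lift_snd, Category.id_comp]
        rw [← Category.assoc, Obj.lift_snd, Obj.lift_snd]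
  rw [h4]
  exact W.map_id _ a

theorem assoc_inv {A B C : 𝒱.Obj} (a : W.H (A.prod (B.prod C))) :
    W.map (Obj.lift (Obj.lift (fst A (B.prod C)) (snd A (B.prod C) ≫ fst B C))
      (snd A (B.prod C) ≫ snd B C))
      (W.map (Obj.lift (fst (A.prod B) C ≫ fst A B)
        (Obj.lift (fst (A.prod B) C ≫ snd A B) (snd (A.prod B) C))) a) = a := by
  rw [← W.map_comp]
  have h4 : W.map (Obj.lift (Obj.lift (fst A (B.prod C)) (snd A (B.prod C) ≫ fst B C))
      (snd A (B.prod C) ≫ snd B C) ≫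
      Obj.lift (fst (A.prod B) C ≫ fst A B)
        (Obj.lift (fst (A.prod B) C ≫ snd A B) (snd (A.prod B) C))) =
      W.map (𝟙 (A.prod (B.prod C))) := by
    refine map_ext (fun a => ?_) fun b => ?_
    · simp only [Category.assoc, Obj.lift_fst, Category.id_comp]
      rw [← Category.assoc, Obj.lift_fst, Obj.lift_fst]
    · refine DFunLike.congr_fun (f := W.map _) (g := W.map _) (map_ext (fun a => ?_)
        fun b => ?_) b
      · simp only [Category.assoc, Obj.lift_fst, Obj.lift_snd, Category.id_comp]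
        rw [← Category.assoc, Obj.lift_fst, Obj.lift_snd]
      · simp only [Category.assoc, Obj.lift_snd, Category.id_comp]
  rw [h4]
  exact W.map_id _ a

/-- `A` is a retract of `B` in cohomology. -/
def Dom (A B : GVar W Γ) : Prop :=
  ∃ (f : A.X ⟶ B.X) (g : B.X ⟶ A.X), (∀ a, W.map f (W.map g a) = a) ∧ Eq' A B f ∧ Eq' B A g

theorem Dom.refl (A : GVar W Γ) : Dom A A :=
  ⟨𝟙 _, 𝟙 _, fun a => by rw [W.map_id, W.map_id], Eq'.id A, Eq'.id A⟩

theorem Dom.trans {A B C : GVar W Γ} (h : Dom A B) (h' : Dom B C) : Dom A C := by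
  obtain ⟨f, g, h1, h2, h3⟩ := h
  obtain ⟨f', g', h1', h2', h3'⟩ := h'
  exact ⟨f ≫ f', g' ≫ g, fun a => by
    rw [W.map_comp, W.map_comp, h1', h1], h2.comp h2', h3'.comp h3⟩

theorem Dom.tate {A B : GVar W Γ} (h : Dom A B) {χ : Γ →* W.Kˣ} (hB : TateConjecture χ B) :
    TateConjecture χ A := by
  obtain ⟨f, g, h1, h2, h3⟩ := h
  intro j c hc ⟨Δ, hΔ, hinv⟩
  have h4 := hB j (W.map g c) (W.map_mem g hc) ⟨Δ, hΔ, fun γ hγ => by
    rw [h3, hinv γ hγ, map_smul]⟩
  have h5 : W.map g c ∈ algSpan W B.X := Submodule.span_mono (Set.subset_iUnion _ j) h4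
  have h6 := algSpan_map f h5
  rw [h1] at h6
  exact algSpan_gr h6 hc

theorem Dom.prod {A B B' : GVar W Γ} (hA : Grd A.act) (hB : Grd B.act) (hB' : Grd B'.act)
    (h : Dom B B') : Dom (prodG A B) (prodG A B') := by
  obtain ⟨f, g, h1, h2, h3⟩ := h
  exact ⟨Obj.lift (fst A.X B.X) (snd A.X B.X ≫ f), Obj.lift (fst A.X B'.X) (snd A.X B'.X ≫ g),
    fun a => prod_inv h1 a, Eq'.lift hA hB' (Eq'.fst hA hB) ((Eq'.snd hA hB).comp h2),
    Eq'.lift hA hB (Eq'.fst hA hB') ((Eq'.snd hA hB').comp h3)⟩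

theorem Dom.swap {A B C : GVar W Γ} (hA : Grd A.act) (hB : Grd B.act) (hC : Grd C.act) :
    Dom (prodG A (prodG B C)) (prodG B (prodG A C)) := by
  have hBC := prodG_grd hB hC
  have hAC := prodG_grd hA hC
  exact ⟨Obj.lift (snd A.X (B.X.prod C.X) ≫ fst B.X C.X)
      (Obj.lift (fst A.X (B.X.prod C.X)) (snd A.X (B.X.prod C.X) ≫ snd B.X C.X)),
    Obj.lift (snd B.X (A.X.prod C.X) ≫ fst A.X C.X)
      (Obj.lift (fst B.X (A.X.prod C.X)) (snd B.X (A.X.prod C.X) ≫ snd A.X C.X)),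
    fun a => swap_inv a,
    Eq'.lift hB hAC ((Eq'.snd hA hBC).comp (Eq'.fst hB hC))
      (Eq'.lift hA hC (Eq'.fst hA hBC) ((Eq'.snd hA hBC).comp (Eq'.snd hB hC))),
    Eq'.lift hA hBC ((Eq'.snd hB hAC).comp (Eq'.fst hA hC))
      (Eq'.lift hB hC (Eq'.fst hB hAC) ((Eq'.snd hB hAC).comp (Eq'.snd hA hC)))⟩

theorem Dom.assoc {A B C : GVar W Γ} (hA : Grd A.act) (hB : Grd B.act) (hC : Grd C.act) :
    Dom (prodG A (prodG B C)) (prodG (prodG A B) C) := by
  have hBC := prodG_grd hB hC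
  have hAB := prodG_grd hA hB
  exact ⟨Obj.lift (Obj.lift (fst A.X (B.X.prod C.X)) (snd A.X (B.X.prod C.X) ≫ fst B.X C.X))
      (snd A.X (B.X.prod C.X) ≫ snd B.X C.X),
    Obj.lift (fst (A.X.prod B.X) C.X ≫ fst A.X B.X)
      (Obj.lift (fst (A.X.prod B.X) C.X ≫ snd A.X B.X) (snd (A.X.prod B.X) C.X)),
    fun a => assoc_inv a,
    Eq'.lift hAB hC (Eq'.lift hA hB (Eq'.fst hA hBC)
      ((Eq'.snd hA hBC).comp (Eq'.fst hB hC))) ((Eq'.snd hA hBC).comp (Eq'.snd hB hC)),
    Eq'.lift hA hBC ((Eq'.fst hAB hC).comp (Eq'.fst hA hB))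
      (Eq'.lift hB hC ((Eq'.fst hAB hC).comp (Eq'.snd hA hB)) (Eq'.snd hAB hC))⟩

end Pool.Agent.H802V
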