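import Mathlib

/-!
# A subgroup of finite index on which a square root of a power of a character is a power
-/

set_option linter.unusedSectionVars false

namespace Pool.Agent.H802V

theorem finite_ker {Γ K : Type*} [Group Γ] [Field K] (ψ : Γ →* Kˣ) (h : ∀ g, ψ g ^ 2 = 1) :
    ψ.ker.FiniteIndex := by
  have h1 : ((ψ.range : Subgroup Kˣ) : Set Kˣ) ⊆ {1, -1} := by
    rintro _ ⟨g, rfl⟩
    have h2 := congrArg (fun x : Kˣ => (x : K)) (h g)
    simp only [Units.val_pow_eq_pow_val, Units.val_one] at h2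
    have h4 : (((ψ g : Kˣ) : K) - 1) * (((ψ g : Kˣ) : K) + 1) = 0 := by linear_combination h2
    rcases mul_eq_zero.1 h4 with h3 | h3
    · left
      exact Units.ext (sub_eq_zero.1 h3)
    · right
      refine Units.ext ?_
      rw [Units.val_neg, Units.val_one]
      linear_combination h3
  have h2 : Finite ψ.range := (Set.toFinite {1, -1}).subset h1
  exact Subgroup.finiteIndex_ker ψ

/-- **The subgroup.** -/
theorem exists_sub {Γ K : Type*} [Group Γ] [Field K] (lam χ : Γ →* Kˣ) (d d' : ℕ)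
    (h : ∀ g, lam g ^ 2 * χ g ^ d' = χ g ^ d) (hpar : Even (d + d')) :
    ∃ Δ : Subgroup Γ, Δ.FiniteIndex ∧ ∀ g ∈ Δ, ∀ a b : ℕ, 2 * a + d = 2 * b + d' →
      lam g * χ g ^ a = χ g ^ b := by
  obtain ⟨e, he⟩ := hpar
  set ψ : Γ →* Kˣ := lam * χ ^ d' * (χ ^ e)⁻¹ with hψ
  have hψa : ∀ g, ψ g = lam g * χ g ^ d' * (χ g ^ e)⁻¹ := fun g => rfl
  refine ⟨ψ.ker, finite_ker ψ fun g => ?_, fun g hg a b hab => ?_⟩
  · have h1 : (χ g ^ e) ^ 2 = χ g ^ d * χ g ^ d' := by
      rw [← pow_mul, ← pow_add]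
      congr 1
      omega
    rw [hψa, mul_pow, inv_pow, h1, ← h g, mul_pow]
    rw [mul_inv_eq_one]
    rw [pow_two (χ g ^ d')]
    simp only [mul_assoc]
  · have h1 : lam g * χ g ^ d' = χ g ^ e := by
      have h2 : ψ g = 1 := hg
      rw [hψa, mul_inv_eq_one] at h2
      exact h2
    have h3 : lam g * χ g ^ a * χ g ^ d' = χ g ^ b * χ g ^ d' := by
      rw [mul_right_comm, h1, ← pow_add, ← pow_add]
      congr 1
      omega
    exact mul_right_cancel h3

end Pool.Agent.H802V
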