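import Pool.Agent.H802T.Pub

/-!
# Families of varieties with big monodromy and their products: definitions
-/

open CategoryTheory AlgebraicGeometry

universe u

namespace Pool.Agent.H802V

open Pool.Agent.TH125.Gal
open Pool.Agent.H914 Pool.Agent.H914.VarClass Pool.Agent.H914.VarClass.Obj
  Pool.Agent.H914.WeilCohomology Pool.Agent.H281R3.HT Pool.Agent.W552 Pool.Agent.H802T

variable {k : Type u} [Field k] {𝒱 : VarClass k} {ops : CycleOps 𝒱}
  {W : WeilCohomology.{u, 0} ops} {Γ : Type} [Group Γ]

/-- `Y` is the product of `X` and `Z`, with an action on the cohomology which is compatible with the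
projections. -/
def IsTimes (X Z Y : GVar W Γ) : Prop :=
  ∃ h : Y.X = X.X.prod Z.X, Commutes X Y (eqToHom h ≫ fst X.X Z.X) ∧
    Commutes Z Y (eqToHom h ≫ snd X.X Z.X)

/-- `Y` is the product `X_{i_1} × (X_{i_2} × ( ⋯ × Z))` for the list `[i_1, i_2, …]`; every index
can occur several times. -/
inductive Word {ι : Type} (X : ι → GVar W Γ) (Z : GVar W Γ) : List ι → GVar W Γ → Prop
  | nil : Word X Z [] Z
  | cons {l Y Y'} (i : ι) : Word X Z l Y → IsTimes (X i) Y Y' → Word X Z (i :: l) Y'

/-- For a combination `c` of the classes in `S` the map `t ↦ s (c * p t)` is not zero on `T` and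
commutes up to scalars with a subgroup of finite index of `Γ` on `T`. -/
def LinkedBy {K A B C Γ : Type} [Field K] [Ring A] [Algebra K A] [Ring B] [Algebra K B] [Ring C]
    [Algebra K C] [Group Γ] (S : Submodule K C) (T : Submodule K A) (p : A →ₐ[K] C)
    (s : C →ₗ[K] B) (ρ : Γ →* (A ≃ₐ[K] A)) (τ : Γ →* (B ≃ₐ[K] B)) : Prop :=
  ∃ c ∈ S, (∃ t ∈ T, s (c * p t) ≠ 0) ∧ ∃ Δ : Subgroup Γ, Δ.FiniteIndex ∧ ∀ g ∈ Δ, ∃ μ : K,
    ∀ t ∈ T, s (c * p (ρ g t)) = μ • τ g (s (c * p t))

/-- The operators respect the degrees. -/
def RespectsDegrees {K A Γ : Type} [Field K] [Ring A] [Algebra K A] [Group Γ]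
    (gr : ℕ → Submodule K A) (ρ : Γ →* (A ≃ₐ[K] A)) : Prop :=
  ∀ g n, ∀ a ∈ gr n, ρ g a ∈ gr n

/-- The transcendental cohomology of `X` and of `Y` is linked by an algebraic correspondence: there is
a combination `c` of algebraic classes on `X × Y` for which the map `t ↦ pr₂_*(c · pr₁^* t)` is not
zero on the transcendental cohomology of `X` and commutes up to scalars with a subgroup of finite
index of `Γ` (as it does if this subgroup fixes `c` up to scalars). -/
def Linked (X Y : GVar W Γ) : Prop :=
  LinkedBy (algSpan W (X.X.prod Y.X)) (transcendental W X.X) (W.map (fst X.X Y.X))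
    (W.push (snd X.X Y.X)) X.act Y.act

/-- The two varieties are linked by a correspondence, or the Tate conjecture holds for their
product. -/
def LinkedOrTate (χ : Γ →* W.Kˣ) (X X' : GVar W Γ) : Prop :=
  Linked X X' ∨ ∀ Y, IsTimes X X' Y → TateConjecture χ Y

/-- `Γ` acts on the cohomology of the varieties `X i` like a Galois group; numerical and homological
equivalence coincide for them; their transcendental cohomology `T i` is in the middle degree and has
big monodromy. -/
structure BigVarieties (χ : Γ →* W.Kˣ) {ι : Type} (X : ι → GVar W Γ) (T : ι → PRep W.K Γ) :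
    Prop where
  galois : ∀ i, IsGaloisAct χ (W.gr (X i).X) (X i).X.dim (W.tr (X i).X)
    (algClasses W (X i).X) (X i).act
  homEqNum : ∀ i, HomEqNum W (X i).X
  middle : ∀ i, Within (transcendental W (X i).X) (W.gr (X i).X (X i).X.dim)
  trans : ∀ i, IsTrans (X i) (T i)
  big : ∀ i, Big (T i).ρ (T i).form
  hyperbolic : ∀ i, Hyperbolic (T i).ρ

/-- The pairs of representations which are related by the exceptional isomorphisms of the orthogonal
group of dimension three or five and the symplectic group of dimension two or four, or possibly by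
triality. -/
def Exceptional {K Γ : Type} [Field K] [Group Γ] (P Q : PRep K Γ) : Prop :=
  P.sign = 1 ∧ ((Q.sign = -1 ∧ (P.dim = 3 ∧ Q.dim = 2 ∨ P.dim = 5 ∧ Q.dim = 4)) ∨
    (Q.sign = 1 ∧ P.dim = 8 ∧ Q.dim = 8 ∧ ¬ Proportional P Q))

/-- The varieties `X i` have big monodromy, no two of the `T i` are exceptional, and if two of them
are isomorphic up to scalars then the two varieties are linked by an algebraic correspondence or
their product satisfies the Tate conjecture. -/
structure BigFamily (χ : Γ →* W.Kˣ) {ι : Type} (X : ι → GVar W Γ) (T : ι → PRep W.K Γ) :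
    Prop where
  varieties : BigVarieties χ X T
  regular : ∀ i j, ¬ Exceptional (T i) (T j)
  pairs : ∀ i j, j ≠ i → Proportional (T i) (T j) → LinkedOrTate χ (X i) (X j)

/-- The cohomology of the variety `P` is spanned by algebraic classes (for example a point, or a
variety with a cell decomposition), and `Γ` acts on it like a Galois group. -/
structure Cellular (χ : Γ →* W.Kˣ) (P : GVar W Γ) : Prop where
  galois : IsGaloisAct χ (W.gr P.X) P.X.dim (W.tr P.X) (algClasses W P.X) P.act
  algebraic : Within ⊤ (algSpan W P.X)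

/-- If `X i` is a factor of even dimension then less than `dim (T i)` of the `T j`, `j` in the list,
are isomorphic to `T i` up to scalars. -/
def FewFactors {ι : Type} (X : ι → GVar W Γ) (T : ι → PRep W.K Γ) (l : List ι) : Prop :=
  ∀ i ∈ l, Even (X i).X.dim → ∀ a b : List ι, (a ++ b).Perm l → (∀ j ∈ a, Proportional (T j) (T i)) →
    a.length < (T i).dim

end Pool.Agent.H802V
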