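import Pool.Agent.H802U.Bc
import Pool.Agent.H802T.Tower
import Pool.Agent.H802V.Pub

/-!
# Towers of products with varieties whose representations are not related
-/

open CategoryTheory AlgebraicGeometry Finset Function Module

set_option linter.unusedSectionVars false

universe u

namespace Pool.Agent.H802T

section rep

variable {K : Type} [Field K] {Γ : Type} [Group Γ] {P Q : PRep K Γ}

/-- the inverse isomorphism -/
noncomputable def LieIso.symm [CharZero K] (f : LieIso P Q) : LieIso Q P where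
  φ := f.φ.symm
  br X Y := by
    rw [LinearEquiv.symm_apply_eq, f.br, LinearEquiv.apply_symm_apply, LinearEquiv.apply_symm_apply]

/-- The dimension of a symplectic representation is even. -/
theorem PRep.even_dim [CharZero K] (hs : Q.sign = -1) : Even Q.dim := by
  by_contra hodd
  rw [Nat.not_even_iff_odd] at hodd
  have hsym : ∀ a b, Q.form a b = -Q.form b a := fun a b => by
    rw [Q.symm, hs, Units.val_neg, Units.val_one, Int.cast_neg, Int.cast_one, neg_one_mul]
  let b := Module.finBasis K Q.V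
  have hsy : ∀ x y, b.toDual x y = b.toDual y x := by
    have h1 : b.toDual = b.toDual.flip := b.ext fun i => b.ext fun j => by
      rw [LinearMap.flip_apply, b.toDual_apply, b.toDual_apply]
      simp only [eq_comm]
    intro x y
    conv_lhs => rw [h1]
    rfl
  let P' : PRep K PUnit := {
    V := Q.V
    ρ := 1
    form := b.toDual
    mult := 1
    sign := 1
    isPol := {
      nondeg := fun x hx => b.toDual_inj x (LinearMap.ext hx)
      symm := fun x y => by
        change b.toDual x y = _ * b.toDual y x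
        rw [Units.val_one, Int.cast_one, one_mul, hsy]
      act := fun g x y => (one_mul _).symm } }
  let X : Module.End K Q.V := b.toDualEquiv.symm.toLinearMap ∘ₗ Q.form
  have hX : ∀ x y, b.toDual (X x) y = Q.form x y := by
    intro x y
    change b.toDual (b.toDualEquiv.symm (Q.form x)) y = _
    rw [← b.toDualEquiv_apply, LinearEquiv.apply_symm_apply]
  have hXm : X ∈ P'.skew := P'.mem_skew.2 fun z t => by
    change b.toDual (X z) t + b.toDual z (X t) = 0
    rw [hsy z, hX, hX, hsym z t, neg_add_cancel]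
  obtain ⟨x, hx0, hx⟩ := P'.exists_ker hodd ⟨X, hXm⟩
  apply hx0
  refine Q.nondeg x fun y => ?_
  rw [← hX]
  change X x = 0 at hx
  rw [hx, map_zero, LinearMap.zero_apply]

/-- The dimensions and signs of the types `B` and `C`. -/
def Bc (P Q : PRep K Γ) : Prop :=
  P.sign = 1 ∧ Q.sign = -1 ∧ P.dim = Q.dim + 1 ∧ 6 ≤ Q.dim

theorem Bc.false [CharZero K] (h : Bc P Q) (f : LieIso P Q) : False :=
  f.bc_false h.1 h.2.1 h.2.2.1 (PRep.even_dim h.2.1) h.2.2.2

/-- unrelated -/
def Unr (Q P : PRep K Γ) : Prop := Unrelated Q P ∨ (Q.Big ∧ (Bc Q P ∨ Bc P Q))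

variable [CharZero K] [IsAlgClosed K] {N : Type} [Fintype N] [DecidableEq N] {F : N → PRep K Γ}

/-- **Goursat's lemma: the isomorphism.** -/
theorem exists_lieIso {o j : N} (hbig : (F o).Big) (hyp : (F o).Hyperbolic)
    (hbj : (F j).Big) (hbot : van F o {j} = ⊥) : Nonempty (LieIso (F o) (F j)) := by
  have h0 : van F o ∅ = (F o).skew := (van_big hbig).resolve_left (van_ne_bot hyp)
  have hz : ∀ Y ∈ LieP F, Y j = 0 → Y o = 0 := by
    intro Y hY hYj
    have h1 : Y o ∈ van F o {j} := ⟨Y, hY, rfl, fun l hl => by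
      rw [Finset.mem_singleton] at hl
      subst hl
      exact hYj⟩
    rwa [hbot, Submodule.mem_bot] at h1
  have hj0 : van F j ∅ = (F j).skew := by
    refine (van_big hbj).resolve_left fun h2 => van_ne_bot hyp ?_
    rw [eq_bot_iff]
    rintro X ⟨Y, hY, rfl, -⟩
    rw [Submodule.mem_bot]
    refine hz Y hY ?_
    have h3 : Y j ∈ van F j ∅ := ⟨Y, hY, rfl, fun l hl => absurd hl (Finset.notMem_empty l)⟩
    rwa [h2, Submodule.mem_bot] at h3
  have hj1 : van F j {o} = ⊥ := by
    refine (van_big hbj).resolve_right fun h1 => van_ne_bot hyp ?_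
    rw [eq_bot_iff]
    rintro X ⟨Y, hY, rfl, -⟩
    rw [Submodule.mem_bot]
    have h3 : Y j ∈ van F j {o} := by
      rw [h1]
      exact hY.1 j
    obtain ⟨Y', hY', hYY, h4⟩ := h3
    have h5 := hz (Y - Y') (Submodule.sub_mem _ hY hY') (by
      rw [Pi.sub_apply, hYY, sub_self])
    rw [Pi.sub_apply, h4 o (Finset.mem_singleton_self o), sub_zero] at h5
    exact h5
  have hz' : ∀ Y ∈ LieP F, Y o = 0 → Y j = 0 := by
    intro Y hY hYo
    have h1 : Y j ∈ van F j {o} := ⟨Y, hY, rfl, fun l hl => by
      rw [Finset.mem_singleton] at hl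
      subst hl
      exact hYo⟩
    rwa [hj1, Submodule.mem_bot] at h1
  have hUo : ∀ X : ↥(F o).skew, ∃ Y ∈ LieP F, Y o = X.1 := by
    intro X
    have h1 : X.1 ∈ van F o ∅ := by
      rw [h0]
      exact X.2
    obtain ⟨Y, hY, hYX, -⟩ := h1
    exact ⟨Y, hY, hYX⟩
  have hUj : ∀ X : ↥(F j).skew, ∃ Y ∈ LieP F, Y j = X.1 := by
    intro X
    have h1 : X.1 ∈ van F j ∅ := by
      rw [hj0]
      exact X.2
    obtain ⟨Y, hY, hYX, -⟩ := h1
    exact ⟨Y, hY, hYX⟩
  choose Yo hYo hYo' using hUo
  have huniq : ∀ Y ∈ LieP F, ∀ Y' ∈ LieP F, Y o = Y' o → Y j = Y' j := by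
    intro Y hY Y' hY' h
    have h1 := hz' (Y - Y') (Submodule.sub_mem _ hY hY') (by rw [Pi.sub_apply, h, sub_self])
    rwa [Pi.sub_apply, sub_eq_zero] at h1
  let φ0 : ↥(F o).skew →ₗ[K] ↥(F j).skew :=
    { toFun := fun X => ⟨Yo X j, (hYo X).1 j⟩
      map_add' := fun X X' => Subtype.ext (huniq _ (hYo _) _
        (Submodule.add_mem _ (hYo X) (hYo X')) (by
          rw [Pi.add_apply, hYo', hYo', hYo']
          rfl))
      map_smul' := fun r X => Subtype.ext (huniq _ (hYo _) _
        (Submodule.smul_mem _ r (hYo X)) (by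
          rw [Pi.smul_apply, hYo', hYo']
          rfl)) }
  have hφ0 : ∀ Y (hY : Y ∈ LieP F), (φ0 ⟨Y o, hY.1 o⟩).1 = Y j := by
    intro Y hY
    exact huniq _ (hYo _) _ hY (hYo' _)
  have hbij : Function.Bijective φ0 := by
    constructor
    · rw [← LinearMap.ker_eq_bot, eq_bot_iff]
      intro X hX
      rw [LinearMap.mem_ker] at hX
      rw [Submodule.mem_bot]
      have h1 := hz _ (hYo X) (congrArg Subtype.val hX)
      rw [hYo'] at h1
      exact Subtype.ext h1
    · intro X'
      obtain ⟨Y, hY, hYX⟩ := hUj X'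
      exact ⟨⟨Y o, hY.1 o⟩, Subtype.ext ((hφ0 Y hY).trans hYX)⟩
  exact ⟨{ φ := LinearEquiv.ofBijective φ0 hbij
           br := fun X Y => by
            apply Subtype.ext
            have h1 := hφ0 _ (LieP_bracket (hYo X) (hYo Y))
            have h2 : (⟨(Yo X * Yo Y - Yo Y * Yo X) o, (LieP_bracket (hYo X) (hYo Y)).1 o⟩ :
                ↥(F o).skew) = (F o).adS X Y := by
              apply Subtype.ext
              change Yo X o * Yo Y o - Yo Y o * Yo X o = X.1 * Y.1 - Y.1 * X.1
              rw [hYo', hYo']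
            rw [h2] at h1
            exact h1 }⟩

/-- **The criterion.** -/
theorem van_single_ne' {o j : N} (hbig : (F o).Big)
    (hyp : (F o).Hyperbolic) (hun : Unr (F j) (F o)) : van F o {j} ≠ ⊥ := by
  rcases hun with hun | ⟨hbj, hun | hun⟩
  · exact van_single_ne hbig hyp hun
  · intro hbot
    obtain ⟨f⟩ := exists_lieIso hbig hyp hbj hbot
    exact hun.false f.symm
  · intro hbot
    obtain ⟨f⟩ := exists_lieIso hbig hyp hbj hbot
    exact hun.false f

/-- **The Lie algebra of an independent factor kills all semi-invariant forms.** -/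
theorem goursat' {o : N} (hbig : (F o).Big) (hyp : (F o).Hyperbolic)
    (hun : ∀ j, j ≠ o → Unr (F j) (F o)) {X : End K (F o).V} (hX : X ∈ (F o).skew)
    {I : Type} [Fintype I] [DecidableEq I] {c : I → N}
    {Φ : MultilinearMap K (fun i => (F (c i)).V) K} (hΦ : SemiInv F c Φ) (v : ∀ i, (F (c i)).V) :
    der F c (Pi.single o X) Φ v = 0 :=
  kills_of_all hbig (van_all hbig (van_ne_bot hyp)
    (fun j hj => van_single_ne' hbig hyp (hun j hj)) _ (Finset.notMem_erase o _)) hX hΦ v

/-- Equivariant multilinear maps are killed by the Lie algebra. -/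
theorem kill_of_generated' {o : N} (hbig : (F o).Big)
    (hyp : (F o).Hyperbolic) (hun : ∀ j, j ≠ o → Unr (F j) (F o)) {A : Set N} (hA : o ∉ A)
    {E : Type} [AddCommGroup E] [Module K E] {τ : Γ → E →ₗ[K] E} (hτ : Generated F A τ)
    {S : Type} [Fintype S] [DecidableEq S] {h : MultilinearMap K (fun _ : S => (F o).V) E}
    (hh : ∃ Δ : Subgroup Γ, Δ.FiniteIndex ∧ ∀ g ∈ Δ, ∃ r : K, ∀ v,
      h (fun j => (F o).ρ g (v j)) = r • τ g (h v)) {X : End K (F o).V} (hX : X ∈ (F o).skew)
    (v : S → (F o).V) : ∑ j, h (update v j (X (v j))) = 0 := by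
  classical
  by_contra hne
  obtain ⟨I, hI, c, J, hc, ⟨Δ', hΔ', hJ⟩, hJx⟩ := hτ _ hne
  obtain ⟨Δ, hΔ, h1⟩ := hh
  apply hJx
  refine MultilinearMap.ext fun u => ?_
  set c' : S ⊕ I → N := Sum.elim (fun _ => o) c with hc'
  let g : MultilinearMap K (fun _ : S => (F o).V) (MultilinearMap K (fun i => (F (c i)).V) K) :=
    J.compMultilinearMap h
  let Φ : MultilinearMap K (fun q => (F (c' q)).V) K :=
    MultilinearMap.uncurrySum (N := fun q => (F (c' q)).V) g
  have hΦ : ∀ w : ∀ q, (F (c' q)).V, Φ w = J (h fun j => w (Sum.inl j)) fun i => w (Sum.inr i) :=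
    fun w => rfl
  have hsemi : SemiInv F c' Φ := by
    refine ⟨Δ ⊓ Δ', inferInstance, fun γ hγ => ?_⟩
    obtain ⟨r, hr⟩ := h1 γ hγ.1
    obtain ⟨μ, hμ⟩ := hJ γ hγ.2
    refine ⟨r * μ, fun w => ?_⟩
    have h2 := hr fun j => w (Sum.inl j)
    have h3 := hμ (h fun j => w (Sum.inl j)) fun i => w (Sum.inr i)
    change J (h fun j => (F o).ρ γ (w (Sum.inl j))) (fun i => (F (c i)).ρ γ (w (Sum.inr i))) =
      r * μ * J (h fun j => w (Sum.inl j)) (fun i => w (Sum.inr i))
    rw [h2, map_smul, mul_assoc, ← h3]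
    rfl
  let w : ∀ q, (F (c' q)).V := fun q => match q with
    | Sum.inl j => v j
    | Sum.inr i => u i
  have hk := goursat' hbig hyp hun hX hsemi w
  rw [der, Fintype.sum_sum_type] at hk
  have h3 : ∀ i : I, Φ (update w (Sum.inr i)
      ((Pi.single o X : ∀ j, End K (F j).V) (c' (Sum.inr i)) (w (Sum.inr i)))) = 0 := by
    intro i
    have h4 : c' (Sum.inr i) ≠ o := fun h => hA (h ▸ hc i)
    rw [Pi.single_eq_of_ne h4, LinearMap.zero_apply]
    exact Φ.map_coord_zero (Sum.inr i) (update_self _ _ _)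
  have h5 : ∀ j : S, Φ (update w (Sum.inl j)
      ((Pi.single o X : ∀ j, End K (F j).V) (c' (Sum.inl j)) (w (Sum.inl j)))) =
      J (h (update v j (X (v j)))) u := by
    intro j
    rw [hΦ]
    have h6 : (Pi.single o X : ∀ j, End K (F j).V) (c' (Sum.inl j)) (w (Sum.inl j)) = X (v j) := by
      change (Pi.single o X : ∀ j, End K (F j).V) o (v j) = X (v j)
      rw [Pi.single_eq_same]
    rw [h6]
    have h7 : (fun l => update w (Sum.inl j) (X (v j)) (Sum.inl l)) = update v j (X (v j)) := by
      funext l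
      by_cases hl : l = j
      · subst hl
        exact (Function.update_self (β := fun q => (F (c' q)).V) (Sum.inl l) (X (v l)) w).trans
          (update_self l _ v).symm
      · exact (Function.update_of_ne (β := fun q => (F (c' q)).V)
          (fun h => hl (Sum.inl.inj h)) (X (v j)) w).trans (update_of_ne hl _ v).symm
    have h8 : (fun i => update w (Sum.inl j) (X (v j)) (Sum.inr i)) = u := by
      funext i
      exact Function.update_of_ne (β := fun q => (F (c' q)).V)
        (fun h => Sum.inr_ne_inl h) (X (v j)) w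
    rw [h7, h8]
  rw [Finset.sum_congr rfl fun i _ => h5 i, Finset.sum_congr rfl fun i _ => h3 i,
    Finset.sum_const_zero, add_zero] at hk
  rw [map_sum, _root_.sum_apply, hk]
  rfl

end rep

open Pool.Agent.TH125.Gal
open Pool.Agent.H914 Pool.Agent.H914.VarClass Pool.Agent.H914.VarClass.Obj
  Pool.Agent.H914.WeilCohomology Pool.Agent.H281R3.HT Pool.Agent.W552 Pool.Agent.H802V

variable {k : Type u} [Field k] {𝒱 : VarClass k} {ops : CycleOps 𝒱}
  {W : WeilCohomology.{u, 0} ops} {Γ : Type} [Group Γ] {χ : Γ →* W.Kˣ}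

/-- independent varieties -/
structure Indep (χ : Γ →* W.Kˣ) {ι N : Type} (X : ι → GVar W Γ) (T : ι → PRep W.K Γ)
    (G : N → PRep W.K Γ) : Prop where
  varieties : BigVarieties χ X T
  unrelated : ∀ i j, j ≠ i → Unr (T j) (T i)
  unrelated' : ∀ i j, Unr (G j) (T i)

variable {ι N : Type} {X : ι → GVar W Γ} {T : ι → PRep W.K Γ} {G : N → PRep W.K Γ} {Z : GVar W Γ}

theorem Indep.total (h : Indep χ X T G) (i : ι) (j : ι ⊕ N) (hj : j ≠ Sum.inl i) :
    Unr (total T G j) (total T G (Sum.inl i)) := by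
  rcases j with j | j
  · exact h.unrelated i j fun h' => hj (h' ▸ rfl)
  · exact h.unrelated' i j

theorem whole_of' [IsAlgClosed W.K] [Finite ι] [Finite N] (h : Indep χ X T G) {Y : GVar W Γ}
    {i : ι} {A : Set (ι ⊕ N)} (hA : Sum.inl i ∉ A)
    (hY : Generated (total T G) A fun g => (Y.act g).toLinearMap) :
    Whole (P := ⟨(X i).X, 0⟩) (Z := Y.X) (isGalois (h.varieties.galois i)) Y.act := by
  classical
  have := Fintype.ofFinite ι
  have := Fintype.ofFinite N
  obtain ⟨e, he, hform⟩ := h.varieties.trans i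
  intro S _ _ lam φ hφ Y' hY' v
  obtain ⟨Δ, hΔ, h1⟩ := hφ
  have h2 := kill_of_generated' (F := Pool.Agent.H802T.total T G) (o := Sum.inl i)
    ((T i).big_iff.1 (h.varieties.big i))
    (h.varieties.hyperbolic i) (h.total i) hA hY (S := S)
    (h := (φ.compLinearMap fun _ => e.toLinearMap : MultilinearMap W.K (fun _ : S => (T i).V)
      (W.H Y.X)))
    ⟨Δ, hΔ, fun g hg => ⟨(lam g : W.K), fun v => ?_⟩⟩
    (X := (e.symm.toLinearMap ∘ₗ Y' ∘ₗ e.toLinearMap : Module.End W.K (T i).V)) ?_
    (fun j => e.symm (v j))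
  · rw [← h2]
    refine Finset.sum_congr rfl fun j _ => ?_
    have h3 : (fun l => e (update (fun j => e.symm (v j)) j (e.symm (Y' (e (e.symm (v j))))) l)) =
        update v j (Y' (v j)) := by
      funext l
      by_cases hl : l = j
      · subst hl
        rw [update_self, update_self, LinearEquiv.apply_symm_apply, LinearEquiv.apply_symm_apply]
      · rw [update_of_ne hl, update_of_ne hl, LinearEquiv.apply_symm_apply]
    exact (congrArg φ h3).symm
  · have h4 : (fun j => e ((T i).ρ g (v j))) =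
        fun j => rhoT (isGalois (h.varieties.galois i)) g (e (v j)) := by
      funext j
      exact Subtype.ext (he g (v j))
    exact (congrArg φ h4).trans (h1 g hg fun j => e (v j))
  · intro x y
    have h5 := hY' (e x) (e y)
    change val (T i).form (e.symm (Y' (e x))) y + val (T i).form x (e.symm (Y' (e y))) = 0
    rw [hform, hform, LinearEquiv.apply_symm_apply, LinearEquiv.apply_symm_apply]
    exact h5

/-- **The Tate conjecture for towers.** -/
theorem tate_towers' [IsAlgClosed W.K] [Finite ι] [Finite N] (h : Indep χ X T G)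
    (hZ : GeneratedBy G Z) {S : Set ι} {Y : GVar W Γ} (hY : Tower X T Z S Y) :
    (Generated (total T G) (Sum.inl '' S ∪ Set.range Sum.inr) fun g => (Y.act g).toLinearMap) ∧
      (TateConjecture χ Y ↔ TateConjecture χ Z) := by
  induction hY with
  | base => exact ⟨generated_base hZ _ Set.subset_union_right, Iff.rfl⟩
  | @step S Y Y' i n hT hi hn hP ih =>
    obtain ⟨ihg, iht⟩ := ih
    obtain ⟨YX, υ⟩ := Y'
    obtain ⟨h0, h1, h2⟩ := hP
    change YX = powTimes (X i) n Y at h0
    subst h0
    simp only [eqToHom_refl, Category.id_comp] at h1 h2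
    have hnot : Sum.inl i ∉ (Sum.inl '' S ∪ Set.range Sum.inr : Set (ι ⊕ N)) := by
      rintro (⟨j, hj, h3⟩ | ⟨j, h3⟩)
      · exact hi (Sum.inl.inj h3 ▸ hj)
      · exact Sum.inr_ne_inl h3
    have hPA := isPowAct h1 h2
    obtain ⟨e, he, hform⟩ := h.varieties.trans i
    refine ⟨?_, ?_⟩
    · have h3 := generated_prod (P := ⟨(X i).X, 0⟩) (F := total T G) (h.varieties.homEqNum i)
        (isGalois (h.varieties.galois i)) hPA ihg (Sum.inl i) e.toLinearMap e.surjective
        (fun g x => Subtype.ext (he g x))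
      have h4 : insert (Sum.inl i) (Sum.inl '' S ∪ Set.range Sum.inr : Set (ι ⊕ N)) =
          Sum.inl '' (insert i S) ∪ Set.range Sum.inr := by
        rw [Set.image_insert_eq, Set.insert_union]
      rw [← h4]
      exact h3
    · rw [← iht]
      constructor
      · refine tate_conv (P := ⟨(X i).X, 0⟩) (h.varieties.homEqNum i) ?_ hPA
        intro h3
        obtain ⟨-, x, -, hx, -⟩ := h.varieties.hyperbolic i
        have h4 : ∀ z : transcendental W (X i).X, z = 0 := by
          intro z
          apply Subtype.ext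
          change (z : W.H (X i).X) = 0
          rw [← one_mul (z : W.H (X i).X), h3, zero_mul]
        exact hx (e.injective (by rw [h4 (e x), map_zero]))
      · exact tate_step2 (P := ⟨(X i).X, 0⟩) (h.varieties.homEqNum i) (h.varieties.middle i)
          (isGalois (h.varieties.galois i)) hPA (fun h' => (hn h').trans_eq e.finrank_eq)
          (whole_of' h hnot ihg)

end Pool.Agent.H802T
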