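import Pool.Agent.H914R2.KDefs
import Pool.Agent.H802T.Pub

/-!
# Polarized varieties with big monodromy: definitions
-/

open CategoryTheory AlgebraicGeometry

universe u

namespace Pool.Agent.H802V

open Pool.Agent.TH125.Gal
open Pool.Agent.H914 Pool.Agent.H914.VarClass Pool.Agent.H914.VarClass.Obj
  Pool.Agent.H914.WeilCohomology Pool.Agent.H281R3.HT Pool.Agent.H802T

/-- The representations `P` and `Q` are isomorphic up to scalars. -/
def Same {K Γ : Type} [Field K] [Group Γ] (P Q : PRep K Γ) : Prop :=
  ∃ u : P.V → Q.V, IsLinearMap K u ∧ Function.Bijective u ∧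
    ∀ g, ∃ a : K, ∀ x, u (opr P.ρ g x) = a • opr Q.ρ g (u x)

/-- The representation `Q` is apart from `P`: its orthogonal or symplectic group has a smaller
dimension than that of `P`; or it is potentially abelian; or it has big monodromy and is not
isomorphic to `P` up to scalars. In the last case, if the groups have the same dimension
`P.size / 2`, this dimension is not `28` (two orthogonal groups in dimension eight), and it is larger
than `10` if `P` and `Q` have different dimensions. -/
def Apart {K Γ : Type} [Field K] [Group Γ] (Q P : PRep K Γ) : Prop :=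
  Q.size < P.size ∨ PotAbelian Q.ρ ∨ (Big Q.ρ Q.form ∧ ¬ Same P Q ∧
    (Q.size = P.size → P.size ≠ 56 ∧ (Q.dim = P.dim ∨ 20 < P.size)))

variable {k : Type u} [Field k] {𝒱 : VarClass k} {ops : CycleOps 𝒱}
  {W : WeilCohomology.{u, 0} ops} {Γ : Type} [Group Γ]

/-- The divisor `D` on `X` satisfies the hard Lefschetz theorem and the standard conjectures of
Lefschetz and of Hodge type. -/
structure Polar (W : WeilCohomology.{u, 0} ops) (P : Polarized 𝒱) : Prop where
  div : P.X.IsCyc 1 P.D
  hard : HardLefschetz W P.X P.D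
  lefschetz : LefschetzB W P.X P.D
  hodge : HodgeType W P.X P.D

/-- The group `Γ` acts on the cohomology of the members of the class `𝒢` like a Galois group, and
the product of two members, with a compatible action, is a member. `Z` and the `X i` are members.
The divisors `D i` on the `X i` satisfy the hard Lefschetz theorem and the standard conjectures of
Lefschetz and of Hodge type; the transcendental cohomology `T i` of `X i` is in the middle degree and
has big monodromy, and it is apart from the other `T j` and from the representations `G j`, which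
generate the cohomology of `Z`. -/
structure BigSystem (χ : Γ →* W.Kˣ) (𝒢 : Set (GVar W Γ)) {ι N : Type} (X : ι → GVar W Γ)
    (D : ∀ i, (X i).X.Cycles) (T : ι → PRep W.K Γ) (G : N → PRep W.K Γ) (Z : GVar W Γ) :
    Prop where
  galois : ∀ X ∈ 𝒢, IsGaloisAct χ (W.gr X.X) X.X.dim (W.tr X.X) (algClasses W X.X) X.act
  prod : ∀ A ∈ 𝒢, ∀ B ∈ 𝒢, ∃ C ∈ 𝒢, ∃ h : C.X = A.X.prod B.X,
    Commutes A C (eqToHom h ≫ fst A.X B.X) ∧ Commutes B C (eqToHom h ≫ snd A.X B.X)
  mem : ∀ i, X i ∈ 𝒢
  mem_base : Z ∈ 𝒢
  polar : ∀ i, Polar W ⟨(X i).X, D i⟩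
  middle : ∀ i, Within (transcendental W (X i).X) (W.gr (X i).X (X i).X.dim)
  trans : ∀ i, IsTrans (X i) (T i)
  big : ∀ i, Big (T i).ρ (T i).form
  hyperbolic : ∀ i, Hyperbolic (T i).ρ
  apart : ∀ i j, j ≠ i → Apart (T j) (T i)
  rest : ∀ i j, Apart (G j) (T i)
  generated : GeneratedBy G Z

/-- The product `P × (P × ( ⋯ × P))` of `n + 1` copies of `P`. -/
noncomputable def copies (ops : CycleOps 𝒱) (P : Polarized 𝒱) : ℕ → Polarized 𝒱
  | 0 => P
  | n + 1 => P.prod ops (copies ops P n)

/-- The product `P i₁ ^ (n₁ + 1) × (P i₂ ^ (n₂ + 1) × (⋯ × Z))` for the list of the `(i, n)`, with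
the sum of the pull-backs of the divisors. -/
noncomputable def powers (ops : CycleOps 𝒱) {ι : Type} (P : ι → Polarized 𝒱) (Z : Polarized 𝒱) :
    List (ι × ℕ) → Polarized 𝒱
  | [] => Z
  | a :: L => (copies ops (P a.1) a.2).prod ops (powers ops P Z L)

/-- The indices in the list are pairwise different, and `n + 1` is less than `dim (T i)` for the
pairs `(i, n)` for which `X i` has even dimension. -/
def Allowed {ι : Type} (X : ι → GVar W Γ) (T : ι → PRep W.K Γ) (L : List (ι × ℕ)) : Prop :=
  (L.map Prod.fst).Nodup ∧ ∀ a ∈ L, Even (X a.1).X.dim → a.2 + 1 < (T a.1).dim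

end Pool.Agent.H802V
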