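import Pool.Agent.H802V.Cel
import Pool.Agent.H802V.HPub
import Pool.Agent.H802T.TwrD

/-!
# The standard conjecture of Hodge type for products of varieties with big monodromy
-/

open CategoryTheory AlgebraicGeometry Finset Function

set_option linter.unusedSectionVars false

universe u

namespace Pool.Agent.H802V

open Pool.Agent.TH125.Gal
open Pool.Agent.H914 Pool.Agent.H914.VarClass Pool.Agent.H914.VarClass.Obj
  Pool.Agent.H914.WeilCohomology Pool.Agent.H281R3.HT Pool.Agent.W552 Pool.Agent.H802T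

variable {k : Type u} [Field k] {𝒱 : VarClass k} {ops : CycleOps 𝒱}
  {W : WeilCohomology.{u, 0} ops} {Γ : Type} [Group Γ] {χ : Γ →* W.Kˣ} {𝒢 : Set (GVar W Γ)}

theorem Same.of {K : Type} [Field K] {P Q : PRep K Γ} (h : Proportional P Q) : Same P Q := by
  obtain ⟨u, hu⟩ := h
  exact ⟨u, u.toLinearMap.isLinear, u.bijective, hu⟩

theorem Apart.unr {K : Type} [Field K] [CharZero K] {P Q : PRep K Γ} (h : Apart Q P)
    (hP : P.Big) : Unr Q P := by
  rcases h with h | h | ⟨h1, h2, h3⟩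
  · exact Or.inl (Or.inl (smaller_of_size h))
  · exact Or.inl (Or.inr (Or.inl h))
  · rcases lt_trichotomy Q.size P.size with hlt | heq | hgt
    · exact Or.inl (Or.inl (smaller_of_size hlt))
    · obtain ⟨h4, h5⟩ := h3 heq
      refine (unr_or_prop hP (Q.big_iff.1 h1) ?_ ?_).resolve_right fun h => h2 (Same.of h)
      · rintro ⟨hs, ⟨hs', ⟨hp, hq⟩ | ⟨hp, hq⟩⟩ | ⟨hs', hp, hq, -⟩⟩
        · rw [PRep.size, hs, hp] at h5
          norm_num at h5
          omega
        · rw [PRep.size, hs, hp] at h5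
          norm_num at h5
          omega
        · rw [PRep.size, hs, hp] at h4
          norm_num at h4
      · rintro ⟨hs, ⟨hs', ⟨hp, hq⟩ | ⟨hp, hq⟩⟩ | ⟨hs', hp, hq, -⟩⟩
        · rw [← heq, PRep.size, hs, hp] at h5
          norm_num at h5
          omega
        · rw [← heq, PRep.size, hs, hp] at h5
          norm_num at h5
          omega
        · rw [← heq, PRep.size, hs, hp] at h4
          norm_num at h4
    · exact Or.inl (Or.inr (Or.inr ⟨h1, Or.inl (smaller_of_size hgt)⟩))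

theorem Polar.pol {P : Polarized 𝒱} (h : Polar W P) : IsPolarization W P.X P.D :=
  ⟨h.div, h.hard, h.lefschetz, h.hodge⟩

variable {ι N : Type} {X : ι → GVar W Γ} {D : ∀ i, (X i).X.Cycles} {T : ι → PRep W.K Γ}
  {G : N → PRep W.K Γ} {Z : GVar W Γ}

theorem BigSystem.gal (h : BigSystem χ 𝒢 X D T G Z) : GaloisClass χ 𝒢 where
  galois := h.galois
  prod A hA B hB := by
    obtain ⟨⟨CX, υ⟩, h1, h0, h2, h3⟩ := h.prod A hA B hB
    change CX = A.X.prod B.X at h0
    subst h0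
    simp only [eqToHom_refl, Category.id_comp] at h2 h3
    exact ⟨_, h1, IsProdVar.mk υ h2 h3⟩

theorem powers_eq {ι : Type} (P : ι → Polarized 𝒱) (Z : Polarized 𝒱) (L : List (ι × ℕ)) :
    powers ops P Z L = tower' ops P Z L := by
  have h1 : ∀ (P : Polarized 𝒱) (n : ℕ), copies ops P n = nest ops n fun _ => P := by
    intro P n
    induction n with
    | zero => rfl
    | succ n ih =>
      rw [copies, ih]
      rfl
  induction L with
  | nil => rfl
  | cons a L ih => rw [powers, tower', h1, ih]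

section step

variable [IsAlgClosed W.K] {A B : GVar W Γ} {D : A.X.Cycles} {n : ℕ}

/-- **The algebraic classes on a product.** -/
theorem mem_Tgt3 (hG : GaloisClass χ 𝒢) (hA : A ∈ 𝒢) (hB : B ∈ 𝒢)
    (hmid : transcendental W A.X ≤ W.gr A.X A.X.dim)
    (hfull : Whole (P := ⟨A.X, D⟩) (Z := B.X) (isGalois (hG.galois A hA)) B.act)
    (hfew : Even A.X.dim → n + 1 < Module.finrank W.K (transcendental W A.X))
    (hDX : HomEqNum W A.X) (s : SB W A.X) {m : ℕ} (hm : m ≤ n)
    {c : W.H ((nest ops m fun _ => ⟨A.X, D⟩).X.prod B.X)} (hc : W552.AS W _ c) :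
    c ∈ Tgt (P := ⟨A.X, D⟩) s m B.X := by
  obtain ⟨υ, hυ, hP⟩ := exists_pow_act hG hA hB D m
  obtain ⟨b, hb⟩ := exists_monoBasis (ops := ops) (⟨A.X, D⟩ : Polarized 𝒱) s.e m
  have hgal := (hG.galois _ hυ)
  refine W552.AS.ind (p := fun c => c ∈ Tgt (P := ⟨A.X, D⟩) s m B.X) ?_ ?_ hc
  · intro j c hc
    obtain ⟨Δ, hΔ, h1⟩ := hgal.cl_fix j c hc
    exact mem_Tgt2 (P := ⟨A.X, D⟩) hb hDX hmid (isGalois (hG.galois A hA)) hP
      (fun h' => lt_of_le_of_lt (by omega) (hfew h')) hfull hΔ h1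
  · intro x y hx hy
    exact Submodule.add_mem _ hx hy

/-- **Positivity for products with powers.** -/
theorem fp_step (hG : GaloisClass χ 𝒢) (hA : A ∈ 𝒢) (hB : B ∈ 𝒢) (hpol : IsPolarization W A.X D)
    (hmid : transcendental W A.X ≤ W.gr A.X A.X.dim) (h1 : (1 : W.H A.X) ≠ 0)
    (hfull : Whole (P := ⟨A.X, D⟩) (Z := B.X) (isGalois (hG.galois A hA)) B.act)
    (hfew : Even A.X.dim → n + 1 < Module.finrank W.K (transcendental W A.X))
    {E : B.X.Cycles} (hE : ∃ g, Fp W B.X E g) :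
    ∃ g, Fp W ((nest ops n fun _ => ⟨A.X, D⟩).prod ops ⟨B.X, E⟩).X
      ((nest ops n fun _ => ⟨A.X, D⟩).prod ops ⟨B.X, E⟩).D g := by
  obtain ⟨g', F'⟩ := hE
  obtain ⟨f, F, hls⟩ := exists_Fp hpol.div hpol.hard hpol.lefschetz hpol.hodge
  have hDX : HomEqNum W A.X := F.hodge.2
  by_cases hB1 : (1 : W.H B.X) = 0
  · obtain ⟨g, l, hFg, hSg, -⟩ := exists_nest (ops := ops) n (fun _ => (⟨A.X, D⟩ : Polarized 𝒱))
      (fun _ => f) (fun _ => F.fr) (fun _ => F.sy) (fun _ => (exists_HB W A.X).some)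
    refine ⟨_, hFg.prod F'.fr, hSg.prod hFg F'.fr F'.sy, fun x _ hx0 => absurd ?_ hx0⟩
    have h1 : (1 : W.H ((nest ops n fun _ => (⟨A.X, D⟩ : Polarized 𝒱)).X.prod B.X)) = 0 := by
      rw [← map_one (W.map (snd _ B.X)), hB1, map_zero]
    exact (one_mul x).symm.trans ((congrArg (· * x) h1).trans (zero_mul x))
  · obtain ⟨s⟩ := exists_SB hDX
    have key : ∀ m ≤ n, ∀ c, W552.AS W (nest ops m fun _ => ⟨A.X, D⟩).X c → c ∈
        Submodule.span W.K {c | ∃ S i, Mq s (prj ops m fun _ => ⟨A.X, D⟩) S i c} := by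
      intro m hm c hc
      exact mq_of_fst (P := ⟨A.X, D⟩) hB1
        (mem_Tgt3 hG hA hB hmid hfull hfew hDX s hm (hc.map (fst _ B.X)))
    obtain ⟨g, G⟩ := Pool.Agent.TH125.Gal.fp_nest (P := ⟨A.X, D⟩) F hls hpol.hard hpol.lefschetz hDX hmid s h1
      n (fun hn => key 1 hn) (key n le_rfl)
    exact ⟨_, G.prod F' (fun c hc => tgt_lspan hDX hmid
      (mem_Tgt3 hG hA hB hmid hfull hfew hDX s le_rfl hc))⟩

end step

theorem BigSystem.homEqNum (h : BigSystem χ 𝒢 X D T G Z) (i : ι) : HomEqNum W (X i).X := by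
  obtain ⟨f, F, -⟩ := exists_Fp (h.polar i).pol.div (h.polar i).pol.hard
    (h.polar i).pol.lefschetz (h.polar i).pol.hodge
  exact F.hodge.2

theorem BigSystem.big' (h : BigSystem χ 𝒢 X D T G Z) (i : ι) : (T i).Big :=
  (T i).big_iff.1 (h.big i)

theorem BigSystem.one_ne (h : BigSystem χ 𝒢 X D T G Z) (i : ι) : (1 : W.H (X i).X) ≠ 0 := by
  intro h3
  obtain ⟨e, -, -⟩ := (h.trans i)
  obtain ⟨-, x, -, hx, -⟩ := (h.hyperbolic i)
  have h4 : ∀ z : transcendental W (X i).X, z = 0 := by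
    intro z
    apply Subtype.ext
    change (z : W.H (X i).X) = 0
    rw [← one_mul (z : W.H (X i).X), h3, zero_mul]
  exact hx (e.injective (by rw [h4 (e x), map_zero]))

theorem BigSystem.indep (h : BigSystem χ 𝒢 X D T G Z) : Indep χ X T G where
  varieties :=
    { galois := fun i => h.gal.galois _ (h.mem i)
      homEqNum := h.homEqNum
      middle := fun i => (h.middle i)
      trans := fun i => (h.trans i)
      big := fun i => (h.big i)
      hyperbolic := fun i => (h.hyperbolic i) }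
  unrelated i j hij := (h.apart i j hij).unr (h.big' i)
  unrelated' i j := (h.rest i j).unr (h.big' i)

/-- **The conjecture of Hodge type for towers.** -/
theorem BigSystem.tower [IsAlgClosed W.K] [Finite ι] [Finite N] (h : BigSystem χ 𝒢 X D T G Z)
    {E : Z.X.Cycles} (hE : IsPolarization W Z.X E) (L : List (ι × ℕ))
    (hL : (L.map Prod.fst).Nodup)
    (hn : ∀ a ∈ L, Even (X a.1).X.dim → a.2 + 1 < (T a.1).dim) :
    ∃ υ : Γ →* (W.H (tower' ops (fun i => ⟨(X i).X, D i⟩) ⟨Z.X, E⟩ L).X ≃ₐ[W.K]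
        W.H (tower' ops (fun i => ⟨(X i).X, D i⟩) ⟨Z.X, E⟩ L).X),
      (⟨(tower' ops (fun i => ⟨(X i).X, D i⟩) ⟨Z.X, E⟩ L).X, υ⟩ : GVar W Γ) ∈ 𝒢 ∧
      Generated (total T G) (Sum.inl '' {i | i ∈ L.map Prod.fst} ∪ Set.range Sum.inr)
        (fun g => (υ g).toLinearMap) ∧
      ∃ g, Fp W (tower' ops (fun i => ⟨(X i).X, D i⟩) ⟨Z.X, E⟩ L).X
        (tower' ops (fun i => ⟨(X i).X, D i⟩) ⟨Z.X, E⟩ L).D g := by
  induction L with
  | nil =>
    obtain ⟨g, hg, _⟩ := exists_Fp hE.div hE.hard hE.lefschetz hE.hodge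
    exact ⟨Z.act, h.mem_base, generated_base h.generated _ Set.subset_union_right, g, hg⟩
  | cons a L ih =>
    rw [List.map_cons, List.nodup_cons] at hL
    obtain ⟨υ, hυ, hgen, hfp⟩ := ih hL.2 fun b hb => hn b (List.mem_cons_of_mem _ hb)
    obtain ⟨υ', hυ', hP⟩ := exists_pow_act h.gal (h.mem a.1) hυ (D a.1) a.2
    have hnot : Sum.inl a.1 ∉
        (Sum.inl '' {i | i ∈ L.map Prod.fst} ∪ Set.range Sum.inr : Set (ι ⊕ N)) := by
      rintro (⟨j, hj, h3⟩ | ⟨j, h3⟩)
      · exact hL.1 (Sum.inl.inj h3 ▸ hj)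
      · exact Sum.inr_ne_inl h3
    obtain ⟨e, he, hform⟩ := (h.trans a.1)
    refine ⟨υ', hυ', ?_, ?_⟩
    · have h3 := generated_prod (P := ⟨(X a.1).X, D a.1⟩) (F := total T G) (h.homEqNum a.1)
        (isGalois (h.gal.galois _ (h.mem a.1))) hP hgen (Sum.inl a.1) e.toLinearMap
        e.surjective (fun g x => Subtype.ext (he g x))
      have h4 : insert (Sum.inl a.1)
          (Sum.inl '' {i | i ∈ L.map Prod.fst} ∪ Set.range Sum.inr : Set (ι ⊕ N)) =
          Sum.inl '' {i | i ∈ (a :: L).map Prod.fst} ∪ Set.range Sum.inr := by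
        ext q
        simp only [Set.mem_insert_iff, Set.mem_union, Set.mem_image, Set.mem_ofPred_eq,
          List.map_cons, List.mem_cons]
        constructor
        · rintro (rfl | ⟨i, hi, rfl⟩ | hq)
          · exact Or.inl ⟨a.1, Or.inl rfl, rfl⟩
          · exact Or.inl ⟨i, Or.inr hi, rfl⟩
          · exact Or.inr hq
        · rintro (⟨i, rfl | hi, rfl⟩ | hq)
          · exact Or.inl rfl
          · exact Or.inr (Or.inl ⟨i, hi, rfl⟩)
          · exact Or.inr (Or.inr hq)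
      rw [← h4]
      exact h3
    · exact fp_step h.gal (h.mem a.1) hυ (h.polar a.1).pol (h.middle a.1)
        (h.one_ne a.1) (whole_of' h.indep hnot hgen)
        (fun h' => (hn a List.mem_cons_self h').trans_eq e.finrank_eq) hfp

/-- **The conjecture of Hodge type.** -/
theorem BigSystem.hodge [IsAlgClosed W.K] [Finite ι] [Finite N] (h : BigSystem χ 𝒢 X D T G Z)
    {E : Z.X.Cycles} (hE : Polar W ⟨Z.X, E⟩) (L : List (ι × ℕ)) (hL : Allowed X T L) :
    HodgeType W (powers ops (fun i => ⟨(X i).X, D i⟩) ⟨Z.X, E⟩ L).X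
      (powers ops (fun i => ⟨(X i).X, D i⟩) ⟨Z.X, E⟩ L).D := by
  rw [powers_eq]
  obtain ⟨-, -, -, g, F⟩ := h.tower hE.pol L hL.1 hL.2
  exact F.hodge.1

end Pool.Agent.H802V
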