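import Pool.Agent.H802V.Prp
import Pool.Agent.H802V.Pub

/-!
# Algebraic correspondences between the transcendental parts
-/

open CategoryTheory AlgebraicGeometry Finset Function

set_option linter.unusedSectionVars false

universe u

namespace Pool.Agent.H802V

open Pool.Agent.TH125.Gal
open Pool.Agent.H914 Pool.Agent.H914.VarClass Pool.Agent.H914.VarClass.Obj
  Pool.Agent.H914.WeilCohomology Pool.Agent.H281R3.HT Pool.Agent.W552 Pool.Agent.H802T

variable {k : Type u} [Field k] {𝒱 : VarClass k} {ops : CycleOps 𝒱}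
  {W : WeilCohomology.{u, 0} ops} {Γ : Type} [Group Γ] {χ : Γ →* W.Kˣ}

section corr

variable {A A' B : 𝒱.Obj}

/-- The correspondence on the first factor. -/
theorem ext1_corr (c : W.H (A.prod A')) (x : W.H (A.prod B)) :
    ext1 (W.corr c) B x =
      W.push (p23 A A' B) (W.map (p12 A A' B) c * W.map (p13 A A' B) x) := by
  refine lin_ext (A := A) (B := B) (f := ext1 (W.corr c) B)
    (g := W.push (p23 A A' B) ∘ₗ LinearMap.mulLeft W.K (W.map (p12 A A' B) c) ∘ₗ
      (W.map (p13 A A' B)).toLinearMap) ?_ x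
  intro a b
  rw [ext1_apply]
  change _ = W.push (p23 A A' B) (W.map (p12 A A' B) c *
    W.map (p13 A A' B) (W.map (fst A B) a * W.map (snd A B) b))
  have e1 : p12 A A' B ≫ fst A A' = fst A (A'.prod B) := Obj.lift_fst _ _
  have e2 : p13 A A' B ≫ fst A B = fst A (A'.prod B) := Obj.lift_fst _ _
  have e3 : p13 A A' B ≫ snd A B = p23 A A' B ≫ snd A' B := Obj.lift_snd _ _
  rw [corr_apply, W.base_change, map_mul (W.map (p12 A A' B)), ← W.map_comp, e1,
    map_mul (W.map (p13 A A' B)), ← W.map_comp, ← W.map_comp, e2, e3, W.map_comp (p23 A A' B),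
    ← mul_assoc, W.push_mul]

theorem corr_alg {c : W.H (A.prod A')} (hc : c ∈ algSpan W (A.prod A')) {x : W.H (A.prod B)}
    (hx : x ∈ algSpan W (A.prod B)) : ext1 (W.corr c) B x ∈ algSpan W (A'.prod B) := by
  rw [ext1_corr]
  exact algSpan_push _ (algSpan_mul (algSpan_map _ hc) (algSpan_map _ hx))

theorem corr_trans {c : W.H (A.prod A')} (hc : c ∈ algSpan W (A.prod A')) {t : W.H A}
    (ht : t ∈ transcendental W A) : W.corr c t ∈ transcendental W A' := by
  rw [mem_trans']
  intro a ha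
  rw [bil_apply, corr_apply, W.tr_push, ← alg_comm (algSpan_map (snd A A') ha), ← mul_assoc,
    ← W.tr_push]
  exact alg_trans ht (algSpan_push _ (algSpan_mul (algSpan_map _ ha) hc))

theorem ctr_eq (u : W.H A) (x : W.H (A.prod B)) :
    ctr (bil W A u) x = W.push (snd A B) (W.map (fst A B) u * x) := by
  refine lin_ext (A := A) (B := B) (f := ctr (bil W A u))
    (g := W.push (snd A B) ∘ₗ LinearMap.mulLeft W.K (W.map (fst A B) u)) ?_ x
  intro a b
  rw [ctr_apply]
  change _ = W.push (snd A B) (W.map (fst A B) u * (W.map (fst A B) a * W.map (snd A B) b))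
  rw [← mul_assoc, ← map_mul, push_snd, bil_apply]

theorem ctr_alg {u : W.H A} (hu : u ∈ algSpan W A) {x : W.H (A.prod B)}
    (hx : x ∈ algSpan W (A.prod B)) : ctr (bil W A u) x ∈ algSpan W B := by
  rw [ctr_eq]
  exact algSpan_push _ (algSpan_mul (algSpan_map _ hu) hx)

end corr

/-- The map on the product preserves the span of the algebraic classes. -/
theorem Tw.ext_alg' {A A' B : GVar W Γ} (D : Tw χ A A') (s : SB W A.X)
    {c : W.H (A.X.prod A'.X)} (hc : c ∈ algSpan W (A.X.prod A'.X)) {c0 : W.K} (h0 : c0 ≠ 0)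
    (h : ∀ t : transcendental W A.X, W.corr c t = c0 • (D.v t : W.H A'.X))
    {x : W.H (A.X.prod B.X)} (hx : x ∈ algSpan W (A.X.prod B.X)) :
    ext1 (D.φ s) B.X x ∈ algSpan W (A'.X.prod B.X) := by
  have h1 : ext1 (D.φ s) B.X x = c0⁻¹ • ext1 (W.corr c) B.X (x -
      ∑ i, W.map (fst A.X B.X) (s.bC i) * W.map (snd A.X B.X) (ctr (bil W A.X (s.uC i)) x)) := by
    refine kun_ext (L := fun x => ext1 (D.φ s) B.X x) (L' := fun x =>
      c0⁻¹ • ext1 (W.corr c) B.X (x - ∑ i, W.map (fst A.X B.X) (s.bC i) *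
        W.map (snd A.X B.X) (ctr (bil W A.X (s.uC i)) x))) (fun _ _ => map_add _ _ _) ?_ ?_ x
    · intro a b
      simp only [map_add, mul_add, Finset.sum_add_distrib, map_sub, smul_sub, smul_add]
      abel
    · intro a b
      have h5 : ∀ i, W.map (fst A.X B.X) (s.bC i) * W.map (snd A.X B.X)
          (ctr (bil W A.X (s.uC i)) (W.map (fst A.X B.X) a * W.map (snd A.X B.X) b)) =
          W.map (fst A.X B.X) (bil W A.X (s.uC i) a • (s.bC i : W.H A.X)) *
            W.map (snd A.X B.X) b := by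
        intro i
        rw [ctr_apply, map_smul, map_smul, mul_smul_comm, smul_mul_assoc]
      rw [Finset.sum_congr rfl fun i _ => h5 i, ← Finset.sum_mul, ← map_sum, ← sub_mul,
        ← map_sub]
      have h6 : a - ∑ i, bil W A.X (s.uC i) a • (s.bC i : W.H A.X) = (piT s a : W.H A.X) := by
        rw [sub_eq_iff_eq_add]
        exact expand_e s a
      rw [h6, ext1_apply, ext1_apply, h, Tw.φ_apply, map_smul, smul_mul_assoc, smul_smul,
        inv_mul_cancel₀ h0, one_smul]
  rw [h1]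
  refine Submodule.smul_mem _ _ (corr_alg hc (Submodule.sub_mem _ hx
    (Submodule.sum_mem _ fun i _ => ?_)))
  exact algSpan_mul (algSpan_map _ (s.bC i).2) (algSpan_map _ (ctr_alg (s.uC i).2 hx))

/-- **A correspondence is proportional to the isomorphism.** -/
theorem Tw.exists_scalar [IsAlgClosed W.K] {A A' : GVar W Γ} (D : Tw χ A A') {T : PRep W.K Γ}
    (hT : IsTrans A T) (hbig : T.Big) (hyp : T.Hyperbolic) (hl : Linked A A') :
    ∃ c ∈ algSpan W (A.X.prod A'.X), ∃ c0 : W.K, c0 ≠ 0 ∧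
      ∀ t : transcendental W A.X, W.corr c t = c0 • (D.v t : W.H A'.X) := by
  classical
  obtain ⟨c, hc, ⟨t0, ht0, hne⟩, Δ, hΔ, hsc⟩ := hl
  change c ∈ algSpan W (A.X.prod A'.X) at hc
  change ∀ g ∈ Δ, ∃ μ : W.K, ∀ t ∈ transcendental W A.X,
    W.corr c (A.act g t) = μ • A'.act g (W.corr c t) at hsc
  change W.corr c t0 ≠ 0 at hne
  refine ⟨c, hc, ?_⟩
  obtain ⟨e, he, -⟩ := hT
  change ∀ g x, (e (T.ρ g x) : W.H A.X) = A.act g (e x) at he
  let r : transcendental W A.X →ₗ[W.K] transcendental W A'.X :=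
    (W.corr c).restrict (fun t ht => corr_trans hc ht)
  have hr : ∀ t, (r t : W.H A'.X) = W.corr c t := fun t => rfl
  let w : T.V →ₗ[W.K] T.V := e.symm.toLinearMap ∘ₗ D.v.symm.toLinearMap ∘ₗ r ∘ₗ e.toLinearMap
  have hw : ∀ x, D.v (e (w x)) = r (e x) := by
    intro x
    change D.v (e (e.symm (D.v.symm (r (e x))))) = _
    rw [LinearEquiv.apply_symm_apply, LinearEquiv.apply_symm_apply]
  have hwg : ∀ g ∈ Δ, ∃ μ : W.K, ∀ x, w (T.ρ g x) = μ • T.ρ g (w x) := by
    intro g hg
    obtain ⟨μ, hμ⟩ := hsc g hg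
    refine ⟨μ * ((D.lam g)⁻¹ : W.Kˣ), fun x => ?_⟩
    apply e.injective
    apply D.v.injective
    rw [hw, map_smul, map_smul]
    have h1 : e (T.ρ g (w x)) = rhoT D.gal g (e (w x)) := Subtype.ext (he g _)
    rw [h1, D.equiv, hw, smul_smul, mul_assoc, Units.inv_mul, mul_one]
    apply Subtype.ext
    rw [hr, he, hμ _ (e x).2]
    rfl
  let b : T.V →ₗ[W.K] T.V →ₗ[W.K] W.K := T.form ∘ₗ w
  have hb : ∀ x y, b x y = T.form (w x) y := fun x y => rfl
  let F : Unit → PRep W.K Γ := fun _ => T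
  let Φ : MultilinearMap W.K (fun _ : Fin 2 => T.V) W.K := Pool.Agent.TH118.SG.bm b
  have hΦ : ∀ v : Fin 2 → T.V, Φ v = T.form (w (v 0)) (v 1) := fun v => rfl
  have hsemi : SemiInv F (fun _ : Fin 2 => ()) Φ := by
    refine ⟨Δ, hΔ, fun g hg => ?_⟩
    obtain ⟨μ, hμ⟩ := hwg g hg
    refine ⟨μ * T.mult g, fun v => ?_⟩
    change T.form (w (T.ρ g (v 0))) (T.ρ g (v 1)) = μ * T.mult g * T.form (w (v 0)) (v 1)
    rw [hμ, LinearMap.map_smul₂, T.act, smul_eq_mul]
    ring
  have hall : van F () (univ.erase ()) = (F ()).skew := by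
    have h1 : (univ.erase () : Finset Unit) = ∅ := by decide
    rw [h1]
    exact (van_big (F := F) (o := ()) hbig).resolve_left (van_ne_bot (F := F) (o := ()) hyp)
  have hk : ∀ X ∈ T.skew, ∀ x y, T.form (w (X x)) y + T.form (w x) (X y) = 0 := by
    intro X hX x y
    have h1 := kills_of_all (F := F) (o := ()) hbig hall hX hsemi ![x, y]
    rw [der, Fin.sum_univ_two, hΦ, hΦ] at h1
    have h2 : (Pi.single () X : ∀ j, Module.End W.K (F j).V) () = X := Pi.single_eq_same _ _
    rw [h2] at h1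
    simpa using h1
  obtain ⟨c0, hc0⟩ := (PRep.perf_of_big hbig).scalar (A := w) fun X => by
    apply LinearMap.ext
    intro x
    rw [Module.End.mul_apply, Module.End.mul_apply, ← sub_eq_zero]
    refine T.nondeg _ fun y => ?_
    have h1 := hk X.1 X.2 x y
    have h2 := X.2 (w x) y
    rw [map_sub, LinearMap.sub_apply]
    linear_combination h1 - h2
  have hall' : ∀ t : transcendental W A.X, W.corr c t = c0 • (D.v t : W.H A'.X) := by
    intro t
    obtain ⟨x, rfl⟩ := e.surjective t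
    have h1 := hw x
    rw [hc0, map_smul, map_smul] at h1
    rw [← hr, ← h1]
    rfl
  refine ⟨c0, fun h0 => hne ?_, hall'⟩
  rw [hall' ⟨t0, ht0⟩, h0, zero_smul]

end Pool.Agent.H802V
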