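import Pool.Agent.H802V.Lnk
import Pool.Agent.H802V.Gts

/-!
# The Tate conjecture for products of varieties with big monodromy
-/

open CategoryTheory AlgebraicGeometry Finset Function

set_option linter.unusedSectionVars false

universe u

namespace Pool.Agent.H802V

open Pool.Agent.TH125.Gal
open Pool.Agent.H914 Pool.Agent.H914.VarClass Pool.Agent.H914.VarClass.Obj
  Pool.Agent.H914.WeilCohomology Pool.Agent.H281R3.HT Pool.Agent.W552 Pool.Agent.H802T

variable {k : Type u} [Field k] {𝒱 : VarClass k} {ops : CycleOps 𝒱}
  {W : WeilCohomology.{u, 0} ops} {Γ : Type} [Group Γ] {χ : Γ →* W.Kˣ}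

/-- the products with given actions -/
theorem IsTimes.eq {X Z Y : GVar W Γ} (h : IsTimes X Z Y) : Y = prodG X Z := by
  obtain ⟨YX, υ⟩ := Y
  obtain ⟨h0, h1, h2⟩ := h
  change YX = X.X.prod Z.X at h0
  subst h0
  simp only [eqToHom_refl, Category.id_comp] at h1 h2
  exact (prodG_eq ⟨h1, h2⟩).symm

theorem isTimes_mk {X Z : GVar W Γ} (υ : Γ →* (W.H (X.X.prod Z.X) ≃ₐ[W.K] W.H (X.X.prod Z.X)))
    (h : IsPA X.act Z.act υ) : IsTimes X Z ⟨X.X.prod Z.X, υ⟩ := by
  refine ⟨rfl, fun g a => ?_, fun g a => ?_⟩
  · have h1 := h.1 g a
    rw [eqToHom_refl, Category.id_comp]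
    exact h1
  · have h1 := h.2 g a
    rw [eqToHom_refl, Category.id_comp]
    exact h1

theorem isTimes_prodG {X Z : GVar W Γ} (hX : Grd X.act) (hZ : Grd Z.act) :
    IsTimes X Z (prodG X Z) := isTimes_mk (prodG X Z).act (prodG_pa hX hZ)

theorem Word.eq {ι : Type} {X : ι → GVar W Γ} {Z Y : GVar W Γ} {l : List ι} (h : Word X Z l Y) :
    Y = wg X Z l := by
  induction h with
  | nil => rfl
  | cons i _ ht ih =>
    subst ih
    exact ht.eq

/-- The Tate conjecture for a product implies it for the factor. -/
theorem tate_conv_one {X Z : GVar W Γ} (hX : Grd X.act) (hZ : Grd Z.act) (hD : HomEqNum W X.X)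
    (h1 : (1 : W.H X.X) ≠ 0) (hT : TateConjecture χ (prodG X Z)) : TateConjecture χ Z := by
  refine tate_conv (P := ⟨X.X, 0⟩) (n := 0) (Z := Z.X) hD h1 (ρ := X.act) (τ := Z.act)
    (υ := (prodG X Z).act) ?_ hT
  refine isPowAct (fun p => ?_) ?_
  · exact (Eq'.fst (A := powG X 0) (powG_grd hX 0) hZ).comp (powG_prj hX 0 p)
  · exact Eq'.snd hX hZ

theorem wg_map {ι ι' : Type} (f : ι' → ι) (X : ι → GVar W Γ) (Z : GVar W Γ) (l : List ι') :
    wg X Z (l.map f) = wg (fun i => X (f i)) Z l := by
  induction l with
  | nil => rfl
  | cons i l ih => exact congrArg (prodG (X (f i))) ih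

theorem perm_split {ι : Type} [DecidableEq ι] (i : ι) (l : List ι) :
    (List.replicate (l.count i) i ++ l.filter fun j => !(j == i)).Perm l := by
  have h1 := List.filter_append_perm (fun j => j == i) l
  rwa [List.filter_beq] at h1

theorem count_le_map {α β : Type} [DecidableEq α] [DecidableEq β] (l : List α) (f : α → β)
    (x : α) : l.count x ≤ (l.map f).count (f x) := List.count_le_count_map

/-- **Products of independent factors.** -/
theorem exists_tower [IsAlgClosed W.K] {ι N : Type} [Finite ι] [Finite N] {X : ι → GVar W Γ}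
    {T : ι → PRep W.K Γ} {Z : GVar W Γ} (hX : ∀ i, Grd (X i).act) (hZ : Grd Z.act)
    [DecidableEq ι] (m : ℕ) : ∀ l : List ι, l.length = m →
      (∀ i ∈ l, Even (X i).X.dim → l.count i < (T i).dim) →
      ∃ S Y, Tower X T Z S Y ∧ (∀ i ∈ S, i ∈ l) ∧ Grd Y.act ∧ Dom (wg X Z l) Y := by
  induction m using Nat.strong_induction_on with
  | _ m ih =>
    intro l hl hb
    rcases l with _ | ⟨i, l⟩
    · exact ⟨∅, Z, Tower.base, fun i hi => absurd hi (Set.notMem_empty i), hZ, Dom.refl _⟩
    · set L := i :: l with hL
      set l' := L.filter fun j => !(j == i) with hl'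
      have hi : i ∈ L := List.mem_cons_self
      have hcount : 0 < L.count i := List.count_pos_iff.2 hi
      obtain ⟨n, hn⟩ := Nat.exists_eq_succ_of_ne_zero hcount.ne'
      have hperm := perm_split i L
      have hlen : l'.length < m := by
        have h1 := hperm.length_eq
        rw [List.length_append, List.length_replicate, hl, ← hl'] at h1
        omega
      have hmem : ∀ j ∈ l', j ∈ L ∧ j ≠ i := by
        intro j hj
        rw [hl', List.mem_filter] at hj
        exact ⟨hj.1, by simpa using hj.2⟩
      obtain ⟨S, Y, hT, hS, hY, hdom⟩ := ih _ hlen l' rfl (fun j hj he =>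
        lt_of_le_of_lt (List.Sublist.count_le j List.filter_sublist) (hb j (hmem j hj).1 he))
      have hiS : i ∉ S := fun h => (hmem i (hS i h)).2 rfl
      refine ⟨insert i S, prodG (powG (X i) n) Y,
        Tower.step i n hT hiS (fun he => ?_) (pow_times (hX i) hY n), ?_, ?_, ?_⟩
      · have h1 := hb i hi he
        rw [hn] at h1
        exact h1
      · intro j hj
        rcases Set.mem_insert_iff.1 hj with rfl | hj
        · exact hi
        · exact (hmem j (hS j hj)).1
      · exact prodG_grd (powG_grd (hX i) n) hY
      · refine (perm_dom hX hZ hperm.symm).trans ?_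
        rw [hn]
        exact replicate_dom (hX i) hZ rfl hX hY hdom n

section family

variable {ι N : Type} {X : ι → GVar W Γ} {T : ι → PRep W.K Γ} {G : N → PRep W.K Γ}
  {Z : GVar W Γ}

/-- a family of varieties with a rest -/
structure Fam (χ : Γ →* W.Kˣ) {ι N : Type} (X : ι → GVar W Γ) (T : ι → PRep W.K Γ)
    (G : N → PRep W.K Γ) (Z : GVar W Γ) : Prop where
  varieties : BigVarieties χ X T
  related : ∀ i j, j ≠ i → Unr (T j) (T i) ∨ Proportional (T i) (T j)
  pairs : ∀ i j, j ≠ i → Proportional (T i) (T j) → LinkedOrTate χ (X i) (X j)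
  generated : GeneratedBy G Z
  rest : ∀ i j, Unr (G j) (T i)
  graded : RespectsDegrees (W.gr Z.X) Z.act

theorem Fam.grd (h : Fam χ X T G Z) (i : ι) : Grd (X i).act := (h.varieties.galois i).gr_mem

theorem Fam.big' (h : Fam χ X T G Z) (i : ι) : (T i).Big :=
  (T i).big_iff.1 (h.varieties.big i)

/-- isomorphism up to scalars -/
def Fam.rel (h : Fam χ X T G Z) : Setoid ι where
  r i j := Proportional (T i) (T j)
  iseqv := ⟨fun _ => prop_refl _, fun hij => prop_symm (h.big' _) hij,
    fun hij hjk => prop_trans hij hjk⟩

/-- a representative -/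
noncomputable def Fam.rp (h : Fam χ X T G Z) (i : ι) : ι :=
  (Quotient.mk h.rel i).out

theorem Fam.rp_prop (h : Fam χ X T G Z) (i : ι) :
    Proportional (T (h.rp i)) (T i) := Quotient.mk_out (s := h.rel) i

theorem Fam.rp_eq (h : Fam χ X T G Z) {i j : ι} (hij : Proportional (T i) (T j)) :
    h.rp i = h.rp j := by
  have h1 : Quotient.mk h.rel i = Quotient.mk h.rel j := Quotient.sound hij
  rw [Fam.rp, h1]
  rfl

theorem Fam.rp_rp (h : Fam χ X T G Z) (i : ι) : h.rp (h.rp i) = h.rp i :=
  h.rp_eq (h.rp_prop i)

theorem Fam.indep (h : Fam χ X T G Z) (p : ι → Prop) (hp : ∀ i, p i → h.rp i = i) :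
    Indep χ (fun i : {i // p i} => X i.1) (fun i => T i.1) G where
  varieties :=
    { galois := fun i => h.varieties.galois i.1
      homEqNum := fun i => h.varieties.homEqNum i.1
      middle := fun i => h.varieties.middle i.1
      trans := fun i => h.varieties.trans i.1
      big := fun i => h.varieties.big i.1
      hyperbolic := fun i => h.varieties.hyperbolic i.1 }
  unrelated i j hij := by
    rcases h.related i.1 j.1 (fun h' => hij (Subtype.ext h')) with h1 | h1
    · exact h1
    · exact absurd (Subtype.ext (by rw [← hp _ j.2, ← h.rp_eq h1, hp _ i.2])) hij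
  unrelated' i j := h.rest i.1 j

/-- The data for the transfer to the representative. -/
theorem Fam.tw [IsAlgClosed W.K] (h : Fam χ X T G Z) (i : ι) :
    Nonempty (Tw χ (X i) (X (h.rp i))) :=
  exists_tw (h.varieties.homEqNum i) (h.varieties.homEqNum _) (h.varieties.middle i)
    (h.varieties.middle _) (isGalois (h.varieties.galois i)) (isGalois (h.varieties.galois _))
    (h.varieties.trans i) (h.varieties.trans _) (h.big' i) (h.varieties.hyperbolic i)
    (prop_symm (h.big' _) (h.rp_prop i))

theorem FewFactors.perm {l l' : List ι} (h : FewFactors X T l) (hp : l.Perm l') :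
    FewFactors X T l' := fun i hi he a b hab ha =>
  h i (hp.mem_iff.2 hi) he a b (hab.trans hp.symm) ha

theorem FewFactors.tail {i : ι} {l : List ι} (h : FewFactors X T (i :: l)) : FewFactors X T l :=
  fun j hj he a b hab ha => h j (List.mem_cons_of_mem _ hj) he a (i :: b)
    (List.perm_middle.trans (hab.cons i)) ha

theorem FewFactors.replace {i i' : ι} {l : List ι} (h : FewFactors X T (i :: l))
    (hi : Proportional (T i') (T i)) (hi' : Proportional (T i) (T i'))
    (hpar : Even (X i').X.dim → Even (X i).X.dim) : FewFactors X T (i' :: l) := by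
  classical
  -- the main step for an index of the old list
  have key : ∀ j ∈ i :: l, Even (X j).X.dim → ∀ a b : List ι, (a ++ b).Perm (i' :: l) →
      (∀ m ∈ a, Proportional (T m) (T j)) → a.length < (T j).dim := by
    intro j hj he a b hab ha
    have h1 : i' ∈ a ++ b := hab.mem_iff.2 List.mem_cons_self
    rcases List.mem_append.1 h1 with h2 | h2
    · have h3 := List.perm_cons_erase h2
      have h4 : ((a.erase i') ++ b).Perm l := by
        refine List.Perm.cons_inv (a := i') ?_
        exact ((h3.append_right b).symm.trans hab)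
      have h5 := h j hj he (i :: a.erase i') b (h4.cons i) (fun m hm => by
        rcases List.mem_cons.1 hm with rfl | hm
        · exact prop_trans hi' (ha i' h2)
        · exact ha m (List.mem_of_mem_erase hm))
      rwa [List.length_cons, ← List.length_cons (a := i'), ← h3.length_eq] at h5
    · have h3 := List.perm_cons_erase h2
      have h4 : (a ++ b.erase i').Perm l := by
        refine List.Perm.cons_inv (a := i') ?_
        exact List.perm_middle.symm.trans ((h3.append_left a).symm.trans hab)
      exact h j hj he a (i :: b.erase i') (List.perm_middle.trans (h4.cons i)) ha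
  intro j hj he a b hab ha
  rcases List.mem_cons.1 hj with rfl | hj
  · have h1 := key i List.mem_cons_self (hpar he) a b hab (fun m hm => prop_trans (ha m hm) hi)
    rwa [prop_dim hi'] at h1
  · exact key j (List.mem_cons_of_mem _ hj) he a b hab ha

/-- **The Tate conjecture for all products.** -/
theorem Fam.tate [IsAlgClosed W.K] [Finite N] (h : Fam χ X T G Z)
    (hTZ : TateConjecture χ Z) (m : ℕ) : ∀ l : List ι,
      (by classical exact l.length + l.countP fun i => h.rp i ≠ i) = m → FewFactors X T l →
        TateConjecture χ (wg X Z l) := by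
  classical
  induction m using Nat.strong_induction_on with
  | _ m ih =>
    intro l hl hb
    by_cases hall : ∀ i ∈ l, h.rp i = i
    · have hfin : Finite {i // i ∈ l} := inferInstance
      have hla : wg X Z l = wg (fun i : {i // i ∈ l} => X i.1) Z l.attach := by
        conv_lhs => rw [← List.attach_map_subtype_val l]
        exact wg_map _ X Z _
      rw [hla]
      obtain ⟨S, Y, hT, -, -, hdom⟩ := exists_tower (N := N) (X := fun i : {i // i ∈ l} => X i.1)
        (T := fun i => T i.1) (Z := Z) (fun i => h.grd i.1) h.graded _ l.attach rfl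
        (fun i hi he => by
          have h2 := hb i.1 i.2 he (List.replicate (l.count i.1) i.1)
            (l.filter fun j => !(j == i.1)) (perm_split i.1 l) (fun j hj => by
              rw [List.eq_of_mem_replicate hj]
              exact prop_refl _)
          rw [List.length_replicate] at h2
          refine lt_of_le_of_lt (b := (l.attach.map Subtype.val).count i.1)
            (count_le_map l.attach Subtype.val i) ?_
          rw [List.attach_map_subtype_val]
          exact h2)
      exact hdom.tate ((tate_towers' (h.indep (fun i => i ∈ l) hall) h.generated hT).2.2 hTZ)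
    · push Not at hall
      obtain ⟨i, hi, hri⟩ := hall
      obtain ⟨l', hperm⟩ : ∃ l', l.Perm (i :: l') := ⟨l.erase i, List.perm_cons_erase hi⟩
      refine (perm_dom h.grd h.graded hperm).tate ?_
      have hb' : FewFactors X T (i :: l') := hb.perm hperm
      have hlen : (i :: l').length + (i :: l').countP (fun i => h.rp i ≠ i) = m := by
        rw [← hl, hperm.length_eq, hperm.countP_eq]
      have hcp : (i :: l').countP (fun i => h.rp i ≠ i) = l'.countP (fun i => h.rp i ≠ i) + 1 := by
        rw [List.countP_cons_of_pos]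
        simpa using hri
      have hcp' : (h.rp i :: l').countP (fun i => h.rp i ≠ i) =
          l'.countP (fun i => h.rp i ≠ i) := by
        rw [List.countP_cons_of_neg]
        simpa using h.rp_rp i
      obtain ⟨D⟩ := h.tw i
      refine D.transfer (h.grd i) (h.grd _) (wg_grd h.grd h.graded l') ?_ ?_ ?_
      · intro s' x hx
        rcases h.pairs (h.rp i) i (Ne.symm hri) (h.rp_prop i) with hp | hp
        · obtain ⟨c, hc, c0, h0, hsc⟩ := D.inv.exists_scalar (h.varieties.trans _) (h.big' _)
            (h.varieties.hyperbolic _) hp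
          exact D.inv.ext_alg' s' hc h0 hsc hx
        · exact D.inv.ext_alg s' (h.grd _) (h.grd _)
            (hp _ (isTimes_prodG (h.grd _) (h.grd _))) hx
      · refine ih _ ?_ l' rfl hb'.tail
        rw [hcp, List.length_cons] at hlen
        omega
      · refine ih _ ?_ (h.rp i :: l') rfl (hb'.replace (h.rp_prop i)
          (prop_symm (h.big' _) (h.rp_prop i)) fun he => (Nat.even_add.1 D.par).2 he)
        rw [hcp, List.length_cons] at hlen
        rw [hcp', List.length_cons]
        omega

theorem Fam.one_ne (h : Fam χ X T G Z) (i : ι) : (1 : W.H (X i).X) ≠ 0 := by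
  intro h3
  obtain ⟨e, -, -⟩ := h.varieties.trans i
  obtain ⟨-, x, -, hx, -⟩ := h.varieties.hyperbolic i
  have h4 : ∀ z : transcendental W (X i).X, z = 0 := by
    intro z
    apply Subtype.ext
    change (z : W.H (X i).X) = 0
    rw [← one_mul (z : W.H (X i).X), h3, zero_mul]
  exact hx (e.injective (by rw [h4 (e x), map_zero]))

theorem Fam.conv (h : Fam χ X T G Z) (l : List ι)
    (hT : TateConjecture χ (wg X Z l)) : TateConjecture χ Z := by
  induction l with
  | nil => exact hT
  | cons i l ih =>
    exact ih (tate_conv_one (h.grd i) (wg_grd h.grd h.graded l) (h.varieties.homEqNum i)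
      (h.one_ne i) hT)

/-- **The Tate conjecture for products of varieties with big monodromy.** -/
theorem Fam.tate_iff [IsAlgClosed W.K] [Finite N] (h : Fam χ X T G Z)
    {l : List ι} {Y : GVar W Γ} (hY : Word X Z l Y) (hl : FewFactors X T l) :
    TateConjecture χ Y ↔ TateConjecture χ Z := by
  rw [hY.eq]
  exact ⟨h.conv l, fun hTZ => h.tate hTZ _ l rfl hl⟩

end family

end Pool.Agent.H802V
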