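import Pool.Agent.H802V.Trans

/-!
# Representations which are isomorphic up to scalars
-/

open CategoryTheory AlgebraicGeometry Finset Function

set_option linter.unusedSectionVars false

universe u

namespace Pool.Agent.H802V

open Pool.Agent.TH125.Gal
open Pool.Agent.H914 Pool.Agent.H914.VarClass Pool.Agent.H914.VarClass.Obj
  Pool.Agent.H914.WeilCohomology Pool.Agent.H281R3.HT Pool.Agent.W552 Pool.Agent.H802T

section rep

variable {K : Type} [Field K] {Γ : Type} [Group Γ] {P Q R : PRep K Γ}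

theorem nontriv (hbig : P.Big) : ∃ x : P.V, x ≠ 0 := by
  by_contra hcon
  push Not at hcon
  obtain ⟨X, -, Y, -, hXY⟩ := hbig.1
  exact hXY (LinearMap.ext fun x => by rw [hcon x, map_zero, map_zero])

/-- the character -/
theorem exists_lam (hbig : P.Big) (h : Proportional P Q) :
    ∃ (u : P.V ≃ₗ[K] Q.V) (lam : Γ →* Kˣ), ∀ g x, u (P.ρ g x) = (lam g : K) • Q.ρ g (u x) := by
  obtain ⟨u, hu⟩ := h
  choose a ha using hu
  change ∀ g x, u (P.ρ g x) = a g • Q.ρ g (u x) at ha
  obtain ⟨x0, hx0⟩ := nontriv hbig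
  have hinj : ∀ g x, P.ρ g x = 0 → x = 0 := fun g x hx => by rw [← P.rinv' g x, hx, map_zero]
  have hinj' : ∀ g x, Q.ρ g x = 0 → x = 0 := fun g x hx => by rw [← Q.rinv' g x, hx, map_zero]
  have ha0 : ∀ g, a g ≠ 0 := by
    intro g hg
    apply hx0
    apply hinj g
    apply u.injective
    rw [ha, hg, zero_smul, map_zero]
  have hux : u x0 ≠ 0 := fun h => hx0 (u.injective (by rw [h, map_zero]))
  have hq : ∀ g, Q.ρ g (u x0) ≠ 0 := fun g h => hux (hinj' g _ h)
  refine ⟨u, { toFun := fun g => Units.mk0 (a g) (ha0 g), map_one' := ?_, map_mul' := ?_ }, ha⟩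
  · apply Units.ext
    have h1 := ha 1 x0
    rw [map_one, map_one, Module.End.one_apply, Module.End.one_apply] at h1
    have h2 : (a 1 - 1) • u x0 = 0 := by rw [sub_smul, one_smul, ← h1, sub_self]
    exact sub_eq_zero.1 ((smul_eq_zero.1 h2).resolve_right hux)
  · intro g h
    apply Units.ext
    change a (g * h) = a g * a h
    have h1 := ha (g * h) x0
    have h2 : u (P.ρ (g * h) x0) = (a g * a h) • Q.ρ (g * h) (u x0) := by
      rw [map_mul, map_mul, Module.End.mul_apply, Module.End.mul_apply, ha, ha, map_smul,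
        smul_smul]
    rw [h2] at h1
    have h3 : (a (g * h) - a g * a h) • Q.ρ (g * h) (u x0) = 0 := by
      rw [sub_smul, ← h1, sub_self]
    exact sub_eq_zero.1 ((smul_eq_zero.1 h3).resolve_right (hq _))

theorem prop_refl (P : PRep K Γ) : Proportional P P :=
  ⟨LinearEquiv.refl K P.V, fun g => ⟨1, fun x => by
    rw [one_smul, LinearEquiv.refl_apply, LinearEquiv.refl_apply]⟩⟩

theorem prop_symm (hbig : P.Big) (h : Proportional P Q) : Proportional Q P := by
  obtain ⟨u, lam, hu⟩ := exists_lam hbig h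
  refine ⟨u.symm, fun g => ⟨((lam g)⁻¹ : Kˣ), fun x => ?_⟩⟩
  change u.symm (Q.ρ g x) = (((lam g)⁻¹ : Kˣ) : K) • P.ρ g (u.symm x)
  rw [LinearEquiv.symm_apply_eq, map_smul, hu, LinearEquiv.apply_symm_apply, smul_smul,
    Units.inv_mul, one_smul]

theorem prop_trans (h : Proportional P Q) (h' : Proportional Q R) : Proportional P R := by
  obtain ⟨u, hu⟩ := h
  obtain ⟨u', hu'⟩ := h'
  refine ⟨u.trans u', fun g => ?_⟩
  obtain ⟨a, ha⟩ := hu g
  obtain ⟨b, hb⟩ := hu' g
  refine ⟨a * b, fun x => ?_⟩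
  rw [LinearEquiv.trans_apply, LinearEquiv.trans_apply, ha, map_smul, hb, smul_smul]

theorem prop_dim (h : Proportional P Q) : P.dim = Q.dim := by
  obtain ⟨u, -⟩ := h
  exact u.finrank_eq

/-- **The forms are proportional.** -/
theorem prop_form [CharZero K] [IsAlgClosed K] (hbig : P.Big) (hyp : P.Hyperbolic)
    {u : P.V ≃ₗ[K] Q.V} {lam : Γ →* Kˣ} (hu : ∀ g x, u (P.ρ g x) = (lam g : K) • Q.ρ g (u x)) :
    ∃ c : K, c ≠ 0 ∧ ∀ x y, Q.form (u x) (u y) = c * P.form x y := by
  classical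
  let b : P.V →ₗ[K] P.V →ₗ[K] K := Q.form.compl₁₂ u.toLinearMap u.toLinearMap
  have hb : ∀ x y, b x y = Q.form (u x) (u y) := fun x y => rfl
  let F : Unit → PRep K Γ := fun _ => P
  let Φ : MultilinearMap K (fun _ : Fin 2 => P.V) K := Pool.Agent.TH118.SG.bm b
  have hΦ : ∀ v : Fin 2 → P.V, Φ v = Q.form (u (v 0)) (u (v 1)) := fun v => rfl
  have hsemi : SemiInv F (fun _ : Fin 2 => ()) Φ := by
    refine ⟨⊤, inferInstance, fun g _ => ⟨(lam g : K) * (lam g : K) * Q.mult g, fun v => ?_⟩⟩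
    change Q.form (u (P.ρ g (v 0))) (u (P.ρ g (v 1))) =
      (lam g : K) * (lam g : K) * Q.mult g * Q.form (u (v 0)) (u (v 1))
    rw [hu, hu, LinearMap.map_smul₂, map_smul, Q.act, smul_eq_mul, smul_eq_mul]
    ring
  have hall : van F () (univ.erase ()) = (F ()).skew := by
    have h1 : (univ.erase () : Finset Unit) = ∅ := by decide
    rw [h1]
    exact (van_big (F := F) (o := ()) hbig).resolve_left (van_ne_bot (F := F) (o := ()) hyp)
  have hk : ∀ X ∈ P.skew, ∀ x y, Q.form (u (X x)) (u y) + Q.form (u x) (u (X y)) = 0 := by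
    intro X hX x y
    have h1 := kills_of_all (F := F) (o := ()) hbig hall hX hsemi ![x, y]
    rw [der, Fin.sum_univ_two, hΦ, hΦ] at h1
    have h2 : (Pi.single () X : ∀ j, Module.End K (F j).V) () = X := Pi.single_eq_same _ _
    rw [h2] at h1
    simpa using h1
  obtain ⟨A0, hA0⟩ := P.exists_op b
  obtain ⟨c, hc⟩ := (PRep.perf_of_big hbig).scalar (A := A0) fun X => by
    apply LinearMap.ext
    intro x
    rw [Module.End.mul_apply, Module.End.mul_apply, ← sub_eq_zero]
    refine P.nondeg _ fun y => ?_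
    have h1 := hk X.1 X.2 x y
    have h2 := X.2 (A0 x) y
    rw [map_sub, LinearMap.sub_apply, hA0, hb]
    have h3 := hA0 x (X.1 y)
    rw [hb] at h3
    linear_combination h1 - h2 + h3
  have hc' : ∀ x y, Q.form (u x) (u y) = c * P.form x y := by
    intro x y
    rw [← hb, ← hA0, hc, map_smul]
    rfl
  refine ⟨c, fun h0 => ?_, hc'⟩
  obtain ⟨x0, hx0⟩ := nontriv hbig
  apply hx0
  apply u.injective
  rw [map_zero]
  refine Q.nondeg _ fun y => ?_
  obtain ⟨y, rfl⟩ := u.surjective y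
  rw [hc', h0, zero_mul]

end rep

variable {k : Type u} [Field k] {𝒱 : VarClass k} {ops : CycleOps 𝒱}
  {W : WeilCohomology.{u, 0} ops} {Γ : Type} [Group Γ] {χ : Γ →* W.Kˣ}

/-- **The data for the transfer.** -/
theorem exists_tw [IsAlgClosed W.K] {A A' : GVar W Γ} {T T' : PRep W.K Γ}
    (hD : HomEqNum W A.X) (hD' : HomEqNum W A'.X)
    (mid : transcendental W A.X ≤ W.gr A.X A.X.dim)
    (mid' : transcendental W A'.X ≤ W.gr A'.X A'.X.dim)
    (gal : IsGalois W χ A.X A.act) (gal' : IsGalois W χ A'.X A'.act)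
    (hT : IsTrans A T) (hT' : IsTrans A' T') (hbig : T.Big) (hyp : T.Hyperbolic)
    (h : Proportional T T') : Nonempty (Tw χ A A') := by
  obtain ⟨u, lam, hu⟩ := exists_lam hbig h
  obtain ⟨c, hc0, hc⟩ := prop_form hbig hyp hu
  obtain ⟨e, he, hform⟩ := hT
  obtain ⟨e', he', hform'⟩ := hT'
  change ∀ g x, (e (T.ρ g x) : W.H A.X) = A.act g (e x) at he
  change ∀ g x, (e' (T'.ρ g x) : W.H A'.X) = A'.act g (e' x) at he'
  change ∀ x y, T.form x y = W.tr A.X ((e x : W.H A.X) * (e y : W.H A.X)) at hform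
  change ∀ x y, T'.form x y = W.tr A'.X ((e' x : W.H A'.X) * (e' y : W.H A'.X)) at hform'
  obtain ⟨x0, hx0⟩ := nontriv hbig
  obtain ⟨y0, hy0⟩ : ∃ y0, T.form x0 y0 ≠ 0 := by
    by_contra hcon
    push Not at hcon
    exact hx0 (T.nondeg x0 hcon)
  have hact : ∀ g x y, T.form (T.ρ g x) (T.ρ g y) = (χ g : W.K) ^ A.X.dim * T.form x y := by
    intro g x y
    rw [hform, hform, he, he, ← map_mul, gal.tr_act]
  have hact' : ∀ g x y, T'.form (T'.ρ g x) (T'.ρ g y) =
      (χ g : W.K) ^ A'.X.dim * T'.form x y := by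
    intro g x y
    rw [hform', hform', he', he', ← map_mul, gal'.tr_act]
  have hsy : ∀ x y, T.form x y = (-1 : W.K) ^ A.X.dim * T.form y x := by
    intro x y
    rw [hform, hform]
    exact trans_symm mid (e x).2 (e y).2
  have hsy' : ∀ x y, T'.form x y = (-1 : W.K) ^ A'.X.dim * T'.form y x := by
    intro x y
    rw [hform', hform']
    exact trans_symm mid' (e' x).2 (e' y).2
  refine ⟨{ hD := hD, hD' := hD', mid := mid, mid' := mid', gal := gal, gal' := gal',
            v := (e.symm.trans u).trans e', lam := lam, equiv := fun g t => ?_,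
            sq := fun g => ?_, par := ?_ }⟩
  · obtain ⟨x, rfl⟩ := e.surjective t
    have h1 : rhoT gal g (e x) = e (T.ρ g x) := Subtype.ext (he g x).symm
    have h2 : ∀ y, rhoT gal' g (e' y) = e' (T'.ρ g y) := fun y => Subtype.ext (he' g y).symm
    rw [h1]
    change e' (u (e.symm (e (T.ρ g x)))) = (lam g : W.K) • rhoT gal' g (e' (u (e.symm (e x))))
    rw [LinearEquiv.symm_apply_apply, LinearEquiv.symm_apply_apply, h2, hu, map_smul]
  · apply Units.ext
    rw [Units.val_mul, Units.val_pow_eq_pow_val, Units.val_pow_eq_pow_val,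
      Units.val_pow_eq_pow_val]
    have h1 := hc (T.ρ g x0) (T.ρ g y0)
    rw [hu, hu, LinearMap.map_smul₂, map_smul, hact', hc, hact, smul_eq_mul,
      smul_eq_mul] at h1
    have h2 : c * T.form x0 y0 ≠ 0 := mul_ne_zero hc0 hy0
    refine mul_right_cancel₀ h2 ?_
    linear_combination h1
  · have h1 := hsy' (u x0) (u y0)
    rw [hc, hc, hsy y0 x0] at h1
    have h2 : c * T.form x0 y0 ≠ 0 := mul_ne_zero hc0 hy0
    have h3 : (-1 : W.K) ^ (A.X.dim + A'.X.dim) = 1 := by
      refine mul_right_cancel₀ h2 ?_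
      rw [pow_add]
      linear_combination -h1
    by_contra hodd
    rw [Nat.not_even_iff_odd] at hodd
    rw [hodd.neg_one_pow] at h3
    have h4 : (2 : W.K) = 0 := by linear_combination -h3
    exact two_ne_zero h4

end Pool.Agent.H802V
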