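import Pool.Agent.H802V.Cor

/-!
# The Tate conjecture for products: transfer between factors with isomorphic transcendental parts
-/

open CategoryTheory AlgebraicGeometry Finset

set_option linter.unusedSectionVars false

universe u

namespace Pool.Agent.H802V

open Pool.Agent.TH125.Gal
open Pool.Agent.H914 Pool.Agent.H914.VarClass Pool.Agent.H914.VarClass.Obj
  Pool.Agent.H914.WeilCohomology Pool.Agent.H281R3.HT Pool.Agent.W552 Pool.Agent.H802T

variable {k : Type u} [Field k] {𝒱 : VarClass k} {ops : CycleOps 𝒱}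
  {W : WeilCohomology.{u, 0} ops} {Γ : Type} [Group Γ] {χ : Γ →* W.Kˣ}

/-- the degrees of the basis -/
def dg {X : 𝒱.Obj} (s : SB W X) : Fin s.NC ⊕ Fin s.NT → ℕ := Sum.elim (fun i => 2 * s.jC i)
  fun _ => X.dim

theorem dg_mem {X : 𝒱.Obj} (s : SB W X) (hmid : transcendental W X ≤ W.gr X X.dim)
    (r : Fin s.NC ⊕ Fin s.NT) : s.e r ∈ W.gr X (dg s r) := by
  rcases r with i | i
  · rw [s.e_inl]
    exact alg_gr (s.alg i)
  · rw [s.e_inr]
    exact hmid (s.bT i).2

theorem ctr_sum {A B : 𝒱.Obj} (s : SB W A) (i : Fin s.NC)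
    (z : Fin s.NC ⊕ Fin s.NT → W.H B) :
    ctr (bil W A (s.uC i)) (∑ r, W.map (fst A B) (s.e r) * W.map (snd A B) (z r)) =
      z (Sum.inl i) := by
  rw [map_sum, Finset.sum_eq_single (Sum.inl i)]
  · rw [ctr_apply]
    have h1 := s.es_e (Sum.inl i) (Sum.inl i)
    rw [if_pos rfl] at h1
    change bil W A (s.uC i) (s.e (Sum.inl i)) = 1 at h1
    rw [h1, one_smul]
  · intro r _ hr
    rw [ctr_apply]
    have h1 := s.es_e (Sum.inl i) r
    rw [if_neg hr] at h1
    change bil W A (s.uC i) (s.e r) = 0 at h1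
    rw [h1, zero_smul]
  · intro h
    exact absurd (Finset.mem_univ _) h

theorem expand_e {A : 𝒱.Obj} (s : SB W A) (a : W.H A) :
    a = (piT s a : W.H A) + ∑ i, bil W A (s.uC i) a • (s.bC i : W.H A) := by
  have h1 : ∀ r, bil W A (s.es r) a = s.e.repr a r := by
    intro r
    conv_lhs => rw [← s.e.sum_repr a]
    rw [map_sum, Finset.sum_eq_single r]
    · rw [map_smul, s.es_e, if_pos rfl, smul_eq_mul, mul_one]
    · intro r' _ hr
      rw [map_smul, s.es_e, if_neg hr, smul_zero]
    · intro h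
      exact absurd (Finset.mem_univ _) h
  have h2 := s.e.sum_repr a
  rw [Fintype.sum_sum_type] at h2
  conv_lhs => rw [← h2]
  rw [add_comm, piT_apply]
  congr 1
  · refine Finset.sum_congr rfl fun i _ => ?_
    rw [← h1, s.e_inr]
    rfl
  · refine Finset.sum_congr rfl fun i _ => ?_
    rw [← h1, s.e_inl]
    rfl

/-- The coordinates of a Tate class at the algebraic classes are algebraic. -/
theorem coord_alg {A B : GVar W Γ} (hA : Grd A.act) (hB : Grd B.act)
    (hmid : transcendental W A.X ≤ W.gr A.X A.X.dim) (hG : IsGalois W χ A.X A.act)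
    (s : SB W A.X) (hTB : TateConjecture χ B) {j : ℕ} {c : W.H (A.X.prod B.X)}
    (hc : c ∈ W.gr (A.X.prod B.X) (2 * j))
    (hinv : ∃ Δ : Subgroup Γ, Δ.FiniteIndex ∧ ∀ g ∈ Δ,
      (prodG A B).act g c = (χ g : W.K) ^ j • c) (i : Fin s.NC) :
    ctr (bil W A.X (s.uC i)) c ∈ algSpan W B.X := by
  obtain ⟨Δ, hΔ, h1⟩ := hinv
  obtain ⟨Δ', hΔ', hfix⟩ := exists_fix hG s
  set y : Fin s.NC ⊕ Fin s.NT → W.H B.X := fun r => ctr (s.e.coord r) c with hy
  have hexp : c = ∑ r, W.map (fst A.X B.X) (s.e r) * W.map (snd A.X B.X) (y r) := expand s.e c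
  have hyi : ctr (bil W A.X (s.uC i)) c = y (Sum.inl i) := by
    conv_lhs => rw [hexp]
    exact ctr_sum s i y
  rw [hyi]
  -- the degree
  have hdeg : y (Sum.inl i) = if 2 * s.jC i ≤ 2 * j then
      proj (W.isInternal B.X) (2 * j - 2 * s.jC i) (y (Sum.inl i)) else 0 := by
    have h3 : c = ∑ r, W.map (fst A.X B.X) (s.e r) * W.map (snd A.X B.X)
        (if dg s r ≤ 2 * j then proj (W.isInternal B.X) (2 * j - dg s r) (y r) else 0) := by
      conv_lhs => rw [← proj_same (W.isInternal _) hc, hexp]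
      rw [map_sum]
      refine Finset.sum_congr rfl fun r _ => ?_
      rw [proj_ext (dg_mem s hmid r)]
      by_cases h : dg s r ≤ 2 * j
      · rw [if_pos h, if_pos h]
      · rw [if_neg h, if_neg h, map_zero, mul_zero]
    have h4 := ctr_sum s i fun r =>
      (if dg s r ≤ 2 * j then proj (W.isInternal B.X) (2 * j - dg s r) (y r) else 0)
    rw [← h3, hyi] at h4
    exact h4
  -- semi-invariance
  have hact : ∀ g ∈ Δ ⊓ Δ', (χ g : W.K) ^ s.jC i • B.act g (y (Sum.inl i)) =
      (χ g : W.K) ^ j • y (Sum.inl i) := by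
    intro g hg
    have h3 : (prodG A B).act g c = ∑ r, W.map (fst A.X B.X) (A.act g (s.e r)) *
        W.map (snd A.X B.X) (B.act g (y r)) := by
      refine (congrArg ((prodG A B).act g) hexp).trans ((map_sum ((prodG A B).act g) _ _).trans
        (Finset.sum_congr rfl fun r _ => ?_))
      rw [← (prodG_pa hA hB).1, ← (prodG_pa hA hB).2]
      exact map_mul ((prodG A B).act g) _ _
    have h4 := congrArg (ctr (bil W A.X (s.uC i))) ((h1 g hg.1).symm.trans h3)
    rw [map_smul, hyi, map_sum, Finset.sum_eq_single (Sum.inl i)] at h4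
    · rw [ctr_apply, s.e_inl, hfix g hg.2, map_smul, s.uC_bC, if_pos rfl, smul_eq_mul,
        mul_one] at h4
      exact h4.symm
    · intro r _ hr
      rw [ctr_apply]
      have h5 : bil W A.X (s.uC i) (A.act g (s.e r)) = 0 := by
        rcases r with i' | t
        · have h6 : i' ≠ i := fun h => hr (h ▸ rfl)
          rw [s.e_inl, hfix g hg.2, map_smul, s.uC_bC, if_neg h6, smul_zero]
        · rw [s.e_inr]
          exact alg_trans (act_trans hG g (s.bT t).2) (s.uC i).2
      rw [h5, zero_smul]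
    · intro h
      exact absurd (Finset.mem_univ _) h
  by_cases h : 2 * s.jC i ≤ 2 * j
  · rw [if_pos h] at hdeg
    have h4 : y (Sum.inl i) ∈ W.gr B.X (2 * (j - s.jC i)) := by
      rw [hdeg, show 2 * (j - s.jC i) = 2 * j - 2 * s.jC i by omega]
      exact proj_mem _ _ _
    have h5 := hTB (j - s.jC i) (y (Sum.inl i)) h4 ⟨Δ ⊓ Δ', inferInstance, fun g hg => ?_⟩
    · exact Submodule.span_mono (Set.subset_iUnion _ _) h5
    · have h6 := hact g hg
      have h7 : (χ g : W.K) ^ j = (χ g : W.K) ^ s.jC i * (χ g : W.K) ^ (j - s.jC i) := by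
        rw [← pow_add]
        congr 1
        omega
      rw [h7, mul_smul] at h6
      exact smul_right_injective _ (pow_ne_zero _ (Units.ne_zero (χ g))) h6
  · rw [if_neg h] at hdeg
    rw [hdeg]
    exact Submodule.zero_mem _

/-- **The transfer.** -/
theorem Tw.transfer {A A' B : GVar W Γ} (D : Tw χ A A') (hA : Grd A.act) (hA' : Grd A'.act)
    (hB : Grd B.act) (hext : ∀ s' : SB W A'.X, ∀ x ∈ algSpan W (A'.X.prod B.X),
      ext1 (D.inv.φ s') B.X x ∈ algSpan W (A.X.prod B.X)) (hTB : TateConjecture χ B)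
    (hT : TateConjecture χ (prodG A' B)) : TateConjecture χ (prodG A B) := by
  obtain ⟨s⟩ := exists_SB D.hD
  obtain ⟨s'⟩ := exists_SB D.hD'
  intro j c hc hinv
  change c ∈ W.gr (A.X.prod B.X) (2 * j) at hc
  change c ∈ Submodule.span W.K (algClasses W (A.X.prod B.X) j)
  have h1 := D.ext_tate s hA hA' hB hT hc hinv
  have h2 := hext s' _ h1
  -- the algebraic part
  have h3 : c = ext1 (D.inv.φ s') B.X (ext1 (D.φ s) B.X c) +
      ∑ i, W.map (fst A.X B.X) (s.bC i) * W.map (snd A.X B.X)
        (ctr (bil W A.X (s.uC i)) c) := by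
    refine kun_ext (L := fun c => c) (L' := fun c => ext1 (D.inv.φ s') B.X
      (ext1 (D.φ s) B.X c) + ∑ i, W.map (fst A.X B.X) (s.bC i) * W.map (snd A.X B.X)
        (ctr (bil W A.X (s.uC i)) c)) (fun _ _ => rfl) ?_ ?_ c
    · intro a b
      simp only [map_add, mul_add, Finset.sum_add_distrib]
      abel
    · intro a b
      rw [ext1_apply, ext1_apply]
      have h4 : D.inv.φ s' (D.φ s a) = piT s a := by
        rw [Tw.φ_apply, Tw.φ_apply, piT_trans]
        change ((D.v.symm (D.v (piT s a)) : transcendental W A.X) : W.H A.X) = _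
        rw [LinearEquiv.symm_apply_apply]
      rw [h4]
      have h5 : ∀ i, W.map (fst A.X B.X) (s.bC i) * W.map (snd A.X B.X)
          (ctr (bil W A.X (s.uC i)) (W.map (fst A.X B.X) a * W.map (snd A.X B.X) b)) =
          W.map (fst A.X B.X) (bil W A.X (s.uC i) a • (s.bC i : W.H A.X)) *
            W.map (snd A.X B.X) b := by
        intro i
        rw [ctr_apply, map_smul, map_smul, mul_smul_comm, smul_mul_assoc]
      rw [Finset.sum_congr rfl fun i _ => h5 i, ← Finset.sum_mul, ← map_sum, ← add_mul,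
        ← map_add]
      rw [← expand_e s a]
  refine algSpan_gr ?_ hc
  rw [h3]
  refine Submodule.add_mem _ h2 (Submodule.sum_mem _ fun i _ => ?_)
  exact algSpan_mul (algSpan_map _ (s.bC i).2)
    (algSpan_map _ (coord_alg hA hB D.mid D.gal s hTB hc hinv i))

end Pool.Agent.H802V
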