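import Pool.Agent.H802V.Word
import Pool.Agent.H802V.Fin

/-!
# The transfer of Tate classes by correspondences
-/

open CategoryTheory AlgebraicGeometry Finset

set_option linter.unusedSectionVars false

universe u

namespace Pool.Agent.H802V

open Pool.Agent.TH125.Gal
open Pool.Agent.H914 Pool.Agent.H914.VarClass Pool.Agent.H914.VarClass.Obj
  Pool.Agent.H914.WeilCohomology Pool.Agent.H281R3.HT Pool.Agent.W552 Pool.Agent.H802T

variable {k : Type u} [Field k] {𝒱 : VarClass k} {ops : CycleOps 𝒱}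
  {W : WeilCohomology.{u, 0} ops} {Γ : Type} [Group Γ] {χ : Γ →* W.Kˣ}

section ext1

variable {A A' B : 𝒱.Obj} (φ : W.H A →ₗ[W.K] W.H A')

/-- the map `φ` on the first factor -/
noncomputable def ext1 (B : 𝒱.Obj) : W.H (A.prod B) →ₗ[W.K] W.H (A'.prod B) :=
  (kEquiv W A' B).toLinearMap ∘ₗ TensorProduct.map φ LinearMap.id ∘ₗ
    (kEquiv W A B).symm.toLinearMap

theorem ext1_apply (a : W.H A) (b : W.H B) :
    ext1 φ B (W.map (fst A B) a * W.map (snd A B) b) =
      W.map (fst A' B) (φ a) * W.map (snd A' B) b := by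
  change kEquiv W A' B (TensorProduct.map φ LinearMap.id
    ((kEquiv W A B).symm (W.map (fst A B) a * W.map (snd A B) b))) = _
  rw [kEquiv_symm, TensorProduct.map_tmul, kEquiv_tmul]
  rfl

theorem lin_ext {M : Type} [AddCommGroup M] [Module W.K M] {f g : W.H (A.prod B) →ₗ[W.K] M}
    (h : ∀ a b, f (W.map (fst A B) a * W.map (snd A B) b) =
      g (W.map (fst A B) a * W.map (snd A B) b)) (x : W.H (A.prod B)) : f x = g x :=
  kun_ext (L := f) (L' := g) (fun _ _ => map_add _ _ _) (fun _ _ => map_add _ _ _) h x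

end ext1

section piT

variable {A : 𝒱.Obj} (s : SB W A)

/-- the projection to the transcendental part -/
noncomputable def piT : W.H A →ₗ[W.K] transcendental W A :=
  ∑ i, LinearMap.smulRight (bil W A (s.uT i)) (s.bT i)

theorem piT_apply (a : W.H A) :
    (piT s a : W.H A) = ∑ i, bil W A (s.uT i) a • (s.bT i : W.H A) := by
  rw [piT, LinearMap.sum_apply, Submodule.coe_sum]
  rfl

theorem piT_trans (t : transcendental W A) : piT s t = t := by
  apply Subtype.ext
  rw [piT_apply]
  exact (s.expand_T t.2).symm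

theorem piT_alg {c : W.H A} (hc : c ∈ algSpan W A) : piT s c = 0 := by
  apply Subtype.ext
  rw [piT_apply]
  refine Finset.sum_eq_zero fun i _ => ?_
  rw [trans_alg (s.uT i).2 hc, zero_smul]

theorem piT_sub (hDX : HomEqNum W A) (a : W.H A) : a - piT s a ∈ algSpan W A := by
  have h1 : a ∈ algSpan W A ⊔ transcendental W A := by
    rw [(isCompl hDX).sup_eq_top]
    exact Submodule.mem_top
  obtain ⟨c, hc, t, ht, rfl⟩ := Submodule.mem_sup.1 h1
  rw [map_add, piT_alg s hc, zero_add]
  have h2 := congrArg Subtype.val (piT_trans s ⟨t, ht⟩)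
  change (piT s t : W.H A) = t at h2
  rw [h2, add_sub_cancel_right]
  exact hc

theorem piT_act (hDX : HomEqNum W A) {ρ : Γ →* (W.H A ≃ₐ[W.K] W.H A)} (hG : IsGalois W χ A ρ)
    (g : Γ) (a : W.H A) : piT s (ρ g a) = rhoT hG g (piT s a) := by
  have h1 : ρ g a = ρ g (a - piT s a) + ρ g (piT s a) := by rw [map_sub, sub_add_cancel]
  rw [h1, map_add, piT_alg s (act_algSpan hG g (piT_sub s hDX a)), zero_add]
  exact piT_trans s (rhoT hG g (piT s a))

theorem piT_deg (hmid : transcendental W A ≤ W.gr A A.dim) {i : ℕ}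
    {a : W.H A} (ha : a ∈ W.gr A i) (hi : i ≠ A.dim) : piT s a = 0 := by
  apply Subtype.ext
  rw [piT_apply]
  refine Finset.sum_eq_zero fun j _ => ?_
  have h1 : bil W A (s.uT j) a = 0 := by
    rw [bil_apply]
    exact W.tr_eq_zero (W.mul_mem (hmid (s.uT j).2) ha) (by omega)
  rw [h1, zero_smul]

end piT

/-- The data: an isomorphism of the transcendental parts of the cohomology which is compatible
with the actions up to a character. -/
structure Tw (χ : Γ →* W.Kˣ) (A A' : GVar W Γ) where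
  hD : HomEqNum W A.X
  hD' : HomEqNum W A'.X
  mid : transcendental W A.X ≤ W.gr A.X A.X.dim
  mid' : transcendental W A'.X ≤ W.gr A'.X A'.X.dim
  gal : IsGalois W χ A.X A.act
  gal' : IsGalois W χ A'.X A'.act
  /-- the isomorphism -/
  v : transcendental W A.X ≃ₗ[W.K] transcendental W A'.X
  /-- the character -/
  lam : Γ →* W.Kˣ
  equiv : ∀ g t, v (rhoT gal g t) = (lam g : W.K) • rhoT gal' g (v t)
  sq : ∀ g, lam g ^ 2 * χ g ^ A'.X.dim = χ g ^ A.X.dim
  par : Even (A.X.dim + A'.X.dim)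

namespace Tw

variable {A A' B : GVar W Γ} (D : Tw χ A A')

/-- the inverse data -/
noncomputable def inv : Tw χ A' A where
  hD := D.hD'
  hD' := D.hD
  mid := D.mid'
  mid' := D.mid
  gal := D.gal'
  gal' := D.gal
  v := D.v.symm
  lam := D.lam⁻¹
  equiv g t := by
    have h1 := D.equiv g (D.v.symm t)
    rw [LinearEquiv.apply_symm_apply] at h1
    rw [LinearEquiv.symm_apply_eq, map_smul, h1, smul_smul, MonoidHom.inv_apply,
      Units.inv_mul, one_smul]
  sq g := by
    rw [← D.sq g, MonoidHom.inv_apply, inv_pow, inv_mul_cancel_left]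
  par := by
    rw [add_comm]
    exact D.par

variable (s : SB W A.X)

/-- the map on the cohomology of `A` -/
noncomputable def φ : W.H A.X →ₗ[W.K] W.H A'.X :=
  (transcendental W A'.X).subtype ∘ₗ D.v.toLinearMap ∘ₗ piT s

theorem φ_apply (a : W.H A.X) : D.φ s a = (D.v (piT s a) : W.H A'.X) := rfl

theorem φ_act (g : Γ) (a : W.H A.X) :
    D.φ s (A.act g a) = (D.lam g : W.K) • A'.act g (D.φ s a) := by
  rw [φ_apply, piT_act s D.hD D.gal, D.equiv]
  rfl

theorem φ_deg {i : ℕ} {a : W.H A.X} (ha : a ∈ W.gr A.X i) (hi : i ≠ A.X.dim) : D.φ s a = 0 := by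
  rw [φ_apply, piT_deg s D.mid ha hi, map_zero]
  rfl

theorem φ_mem (a : W.H A.X) : D.φ s a ∈ W.gr A'.X A'.X.dim := D.mid' (D.v (piT s a)).2

/-- the equivariance of the map on the product -/
theorem ext_act (hA : Grd A.act) (hA' : Grd A'.act) (hB : Grd B.act) (g : Γ)
    (x : W.H (A.X.prod B.X)) :
    ext1 (D.φ s) B.X ((prodG A B).act g x) =
      (D.lam g : W.K) • (prodG A' B).act g (ext1 (D.φ s) B.X x) := by
  refine lin_ext (A := A.X) (B := B.X) (f := ext1 (D.φ s) B.X ∘ₗ ((prodG A B).act g).toLinearMap)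
    (g := (D.lam g : W.K) • (((prodG A' B).act g).toLinearMap ∘ₗ ext1 (D.φ s) B.X)) ?_ x
  intro a b
  have e1 : (prodG A B).act g (W.map (fst A.X B.X) a * W.map (snd A.X B.X) b) =
      W.map (fst A.X B.X) (A.act g a) * W.map (snd A.X B.X) (B.act g b) := by
    rw [← (prodG_pa hA hB).1 g a, ← (prodG_pa hA hB).2 g b]
    exact map_mul ((prodG A B).act g) _ _
  have e2 : (prodG A' B).act g (W.map (fst A'.X B.X) (D.φ s a) * W.map (snd A'.X B.X) b) =
      W.map (fst A'.X B.X) (A'.act g (D.φ s a)) * W.map (snd A'.X B.X) (B.act g b) := by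
    rw [← (prodG_pa hA' hB).1 g (D.φ s a), ← (prodG_pa hA' hB).2 g b]
    exact map_mul ((prodG A' B).act g) _ _
  change ext1 (D.φ s) B.X ((prodG A B).act g (W.map (fst A.X B.X) a * W.map (snd A.X B.X) b)) =
    (D.lam g : W.K) • (prodG A' B).act g
      (ext1 (D.φ s) B.X (W.map (fst A.X B.X) a * W.map (snd A.X B.X) b))
  rw [e1, ext1_apply, ext1_apply, e2, φ_act, map_smul, smul_mul_assoc]
  rfl

/-- the degrees -/
theorem ext_deg {m m' : ℕ} (hm : m + A'.X.dim = m' + A.X.dim) {x : W.H (A.X.prod B.X)}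
    (hx : x ∈ W.gr (A.X.prod B.X) m) :
    ext1 (D.φ s) B.X x ∈ W.gr (A'.X.prod B.X) m' := by
  have h1 : ∀ x, ext1 (D.φ s) B.X (proj (W.isInternal (A.X.prod B.X)) m x) =
      proj (W.isInternal (A'.X.prod B.X)) m' (ext1 (D.φ s) B.X x) := by
    intro x
    refine W.kunneth_induction (p := fun x => ext1 (D.φ s) B.X
      (proj (W.isInternal (A.X.prod B.X)) m x) =
      proj (W.isInternal (A'.X.prod B.X)) m' (ext1 (D.φ s) B.X x)) ?_ ?_ x
    · intro a b ha hb
      rw [map_add, map_add, map_add, map_add, ha, hb]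
    · intro i j a ha b hb
      have h2 : W.map (fst A.X B.X) a * W.map (snd A.X B.X) b ∈ W.gr (A.X.prod B.X) (i + j) :=
        W.mul_mem (W.map_mem _ ha) (W.map_mem _ hb)
      by_cases hi : i = A.X.dim
      · have h3 : ext1 (D.φ s) B.X (W.map (fst A.X B.X) a * W.map (snd A.X B.X) b) ∈
            W.gr (A'.X.prod B.X) (A'.X.dim + j) := by
          rw [ext1_apply]
          exact W.mul_mem (W.map_mem _ (D.φ_mem s a)) (W.map_mem _ hb)
        by_cases hij : i + j = m
        · subst hij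
          have h4 : m' = A'.X.dim + j := by omega
          subst h4
          rw [proj_same _ h2, proj_same _ h3]
        · rw [proj_ne _ h2 hij, proj_ne _ h3 (by omega), map_zero]
      · have h3 : ext1 (D.φ s) B.X (W.map (fst A.X B.X) a * W.map (snd A.X B.X) b) = 0 := by
          rw [ext1_apply, D.φ_deg s ha hi, map_zero, zero_mul]
        by_cases hij : i + j = m
        · subst hij
          rw [proj_same _ h2, h3, map_zero]
        · rw [proj_ne _ h2 hij, h3, map_zero, map_zero]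
  have h2 := h1 x
  rw [proj_same _ hx] at h2
  rw [h2]
  exact proj_mem _ _ _

/-- The image of a Tate class is a Tate class. -/
theorem ext_tate (hA : Grd A.act) (hA' : Grd A'.act) (hB : Grd B.act)
    (hT : TateConjecture χ (prodG A' B)) {j : ℕ} {c : W.H (A.X.prod B.X)}
    (hc : c ∈ W.gr (A.X.prod B.X) (2 * j))
    (hinv : ∃ Δ : Subgroup Γ, Δ.FiniteIndex ∧ ∀ g ∈ Δ,
      (prodG A B).act g c = (χ g : W.K) ^ j • c) :
    ext1 (D.φ s) B.X c ∈ algSpan W (A'.X.prod B.X) := by
  by_cases hj : A.X.dim ≤ 2 * j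
  · obtain ⟨e, he⟩ := D.par
    obtain ⟨j', hj'⟩ : ∃ j', 2 * j' + A.X.dim = 2 * j + A'.X.dim := ⟨j + e - A.X.dim, by omega⟩
    obtain ⟨Δ, hΔ, h1⟩ := hinv
    obtain ⟨Δ', hΔ', h2⟩ := exists_sub D.lam χ A.X.dim A'.X.dim D.sq D.par
    have h3 : ext1 (D.φ s) B.X c ∈ W.gr (A'.X.prod B.X) (2 * j') := D.ext_deg s (by omega) hc
    have h4 := hT j' (ext1 (D.φ s) B.X c) h3 ⟨Δ ⊓ Δ', inferInstance, fun g hg => ?_⟩
    · exact Submodule.span_mono (Set.subset_iUnion _ _) h4
    · have h5 := D.ext_act s hA hA' hB g c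
      rw [h1 g hg.1] at h5
      have h6 : ext1 (D.φ s) B.X ((χ g : W.K) ^ j • c) =
          (χ g : W.K) ^ j • ext1 (D.φ s) B.X c := map_smul _ _ _
      rw [h6] at h5
      have h7 := congrArg (fun x : W.Kˣ => (x : W.K)) (h2 g hg.2 j' j (by omega))
      simp only [Units.val_mul, Units.val_pow_eq_pow_val] at h7
      rw [← h7, mul_smul] at h5
      exact (smul_right_injective _ (Units.ne_zero (D.lam g)) h5).symm
  · have h1 : ∀ x, ext1 (D.φ s) B.X (proj (W.isInternal (A.X.prod B.X)) (2 * j) x) = 0 := by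
      intro x
      refine W.kunneth_induction (p := fun x => ext1 (D.φ s) B.X
        (proj (W.isInternal (A.X.prod B.X)) (2 * j) x) = 0) ?_ ?_ x
      · intro a b ha hb
        rw [map_add, map_add, ha, hb, add_zero]
      · intro i l a ha b hb
        have h2 : W.map (fst A.X B.X) a * W.map (snd A.X B.X) b ∈ W.gr (A.X.prod B.X) (i + l) :=
          W.mul_mem (W.map_mem _ ha) (W.map_mem _ hb)
        by_cases hij : i + l = 2 * j
        · rw [← hij, proj_same _ h2, ext1_apply, D.φ_deg s ha (by omega), map_zero, zero_mul]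
        · rw [proj_ne _ h2 hij, map_zero]
    have h2 := h1 c
    rw [proj_same _ hc] at h2
    rw [h2]
    exact Submodule.zero_mem _

end Tw

end Pool.Agent.H802V
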