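import Pool.Agent.H802V.Dom

/-!
# Products of the members of a family in any order
-/

open CategoryTheory AlgebraicGeometry Finset

set_option linter.unusedSectionVars false

universe u

namespace Pool.Agent.H802V

open Pool.Agent.TH125.Gal
open Pool.Agent.H914 Pool.Agent.H914.VarClass Pool.Agent.H914.VarClass.Obj
  Pool.Agent.H914.WeilCohomology Pool.Agent.H281R3.HT Pool.Agent.W552 Pool.Agent.H802T

variable {k : Type u} [Field k] {𝒱 : VarClass k} {ops : CycleOps 𝒱}
  {W : WeilCohomology.{u, 0} ops} {Γ : Type} [Group Γ]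

section word

variable {ι : Type} (X : ι → GVar W Γ) (Z : GVar W Γ)

/-- the product of the list -/
noncomputable def wg : List ι → GVar W Γ
  | [] => Z
  | i :: l => prodG (X i) (wg l)

variable {X Z}

theorem wg_grd (hX : ∀ i, Grd (X i).act) (hZ : Grd Z.act) (l : List ι) : Grd (wg X Z l).act := by
  induction l with
  | nil => exact hZ
  | cons i l ih => exact prodG_grd (hX i) ih

theorem perm_dom (hX : ∀ i, Grd (X i).act) (hZ : Grd Z.act) {l l' : List ι} (h : l.Perm l') :
    Dom (wg X Z l) (wg X Z l') := by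
  induction h with
  | nil => exact Dom.refl _
  | cons i _ ih => exact Dom.prod (hX i) (wg_grd hX hZ _) (wg_grd hX hZ _) ih
  | swap i j l => exact Dom.swap (hX j) (hX i) (wg_grd hX hZ _)
  | trans _ _ h1 h2 => exact h1.trans h2

end word

section power

/-- the action on the power -/
noncomputable def powAct (X : GVar W Γ) :
    (n : ℕ) → (Γ →* (W.H (power ops X.X n) ≃ₐ[W.K] W.H (power ops X.X n)))
  | 0 => X.act
  | n + 1 => (prodG X ⟨power ops X.X n, powAct X n⟩).act

/-- the power -/
noncomputable def powG (X : GVar W Γ) (n : ℕ) : GVar W Γ := ⟨power ops X.X n, powAct X n⟩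

theorem powG_succ (X : GVar W Γ) (n : ℕ) : powG X (n + 1) = prodG X (powG X n) := rfl

theorem powG_zero (X : GVar W Γ) : powG X 0 = X := rfl

variable {X Z : GVar W Γ} (hX : Grd X.act) (hZ : Grd Z.act)

include hX

theorem powG_grd (n : ℕ) : Grd (powG X n).act := by
  induction n with
  | zero => exact hX
  | succ n ih => exact prodG_grd hX ih

theorem powG_prj (n : ℕ) (p : Fin (n + 1)) : Eq' (powG X n) X (powerPrj ops X.X n p) := by
  induction n with
  | zero =>
    obtain rfl : p = 0 := Fin.fin_one_eq_zero p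
    exact Eq'.id X
  | succ n ih =>
    refine Fin.cases ?_ (fun p => ?_) p
    · exact Eq'.fst hX (powG_grd hX n)
    · exact (Eq'.snd hX (powG_grd hX n)).comp (ih p)

omit hX in
theorem isPowTimes_mk (n : ℕ)
    (υ : Γ →* (W.H (powTimes X n Z) ≃ₐ[W.K] W.H (powTimes X n Z)))
    (h1 : ∀ p, Intertwines (W.map (toPow X n Z p)) X.act υ)
    (h2 : Intertwines (W.map (toRest X n Z)) Z.act υ) :
    IsPowTimes X n Z ⟨powTimes X n Z, υ⟩ := by
  refine ⟨rfl, fun p g a => ?_, fun g a => ?_⟩
  · have h := h1 p g a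
    rw [eqToHom_refl, Category.id_comp]
    exact h
  · have h := h2 g a
    rw [eqToHom_refl, Category.id_comp]
    exact h

include hZ

theorem pow_times (n : ℕ) : IsPowTimes X n Z (prodG (powG X n) Z) :=
  isPowTimes_mk n (prodG (powG X n) Z).act
    (fun p => (Eq'.fst (powG_grd hX n) hZ).comp (powG_prj hX n p))
    (Eq'.snd (powG_grd hX n) hZ)

theorem replicate_dom {ι : Type} {F : ι → GVar W Γ} {i : ι} (hi : F i = X) {l : List ι} {Y : GVar W Γ}
    (hF : ∀ i, Grd (F i).act) (hY : Grd Y.act)
    (h : Dom (wg F Z l) Y) (n : ℕ) :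
    Dom (wg F Z (List.replicate (n + 1) i ++ l)) (prodG (powG X n) Y) := by
  subst hi
  induction n with
  | zero => exact Dom.prod hX (wg_grd hF hZ _) hY h
  | succ n ih =>
    rw [List.replicate_succ, List.cons_append, powG_succ]
    exact (Dom.prod hX (wg_grd hF hZ _) (prodG_grd (powG_grd hX n) hY) ih).trans
      (Dom.assoc hX (powG_grd hX n) hY)

end power

end Pool.Agent.H802V
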